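import Mathlib

set_option autoImplicit false

/-!
# Order of magnitude of the number of amplitude Mersenne primes for almost every amplitude

Target (MP_9b2bac_nt): for almost every `β > 0` the number of primes `p ≤ n` such that the `p`-rough
part of `⌈β 2 ^ p⌉ - 1` is prime has exact order `log n`.
-/

open Finset

namespace Pool.Agent.H555R4.LW

/-- The product, with multiplicity, of the prime factors of `m` that are larger than `p`. -/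
def rp (p m : ℕ) : ℕ := (m.primeFactorsList.filter (fun r => p < r)).prod

/-- The product, with multiplicity, of the prime factors of `m` that are at most `p`. -/
def sp (p m : ℕ) : ℕ := (m.primeFactorsList.filter (fun r => r ≤ p)).prod

/-- primes in short intervals (this is `Pool.Agent.H469R10.HO.Hoheisel`, proved) -/
def Hoh : Prop := ∃ δ η : ℝ, 0 < δ ∧ δ < 1 ∧ 0 < η ∧ ∃ X₀ : ℕ, 2 ≤ X₀ ∧
  ∀ X Y : ℕ, X₀ ≤ X → (X : ℝ) ^ (1 - δ) ≤ Y → Y ≤ X →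
    η * Y / Real.log X ≤ (((Ioc X (X + Y)).filter Nat.Prime).card : ℝ)

/-- few integers in an interval have a large smooth part -/
def StA : Prop := ∃ p₀ : ℕ, ∀ p : ℕ, p₀ ≤ p → ∀ A T : ℕ, 2 ^ (p / 2) ≤ T →
  (((Ico A (A + T)).filter (fun n => 0 < n ∧ 2 ^ (p / 4) < sp p n)).card : ℝ) ≤
    (T : ℝ) / 2 ^ (p / 16)

open Classical in
/-- one-dimensional sieve -/
def StB1 : Prop := ∃ C : ℝ, 0 < C ∧ ∃ q₀ : ℕ, ∀ q : ℕ, q₀ ≤ q → ∀ A T : ℕ, 2 ^ (q / 4) ≤ T →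
  (((Ico A (A + T)).filter
    (fun m => ∀ l : ℕ, l.Prime → q < l → l ≤ 2 ^ (q / 64) → ¬ l ∣ m)).card : ℝ) ≤
      C * T * (Real.log q / q)

open Classical in
/-- two-dimensional sieve -/
def StB2 : Prop := ∃ C : ℝ, 0 < C ∧ ∃ q₀ : ℕ, ∀ q : ℕ, q₀ ≤ q → ∀ A T k r : ℕ, 2 ^ (q / 4) ≤ T →
  k ≤ q → 0 < r → r < 2 ^ k →
  (((Ico A (A + T)).filter
    (fun m => ∀ l : ℕ, l.Prime → q < l → l ≤ 2 ^ (q / 64) →
      ¬ l ∣ m ∧ ¬ l ∣ 2 ^ k * m + r)).card : ℝ) ≤ C * T * (Real.log q / q) ^ 2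

/-- upper bound for one exponent, uniform in the cell -/
def StU1 : Prop := ∃ C : ℝ, 0 < C ∧ ∃ p₀ : ℕ, ∀ p : ℕ, p₀ ≤ p → ∀ L c : ℕ, 10 * L ≤ p → 1 ≤ c →
  (((Ico (c * 2 ^ (p - L)) ((c + 1) * 2 ^ (p - L))).filter
    (fun n => (rp p n).Prime)).card : ℝ) ≤ C * 2 ^ (p - L) * (Real.log p / p)

/-- upper bound for two exponents, uniform in the cell -/
def StU2 : Prop := ∃ C : ℝ, 0 < C ∧ ∃ p₀ : ℕ, ∀ p : ℕ, p₀ ≤ p → ∀ k L c : ℕ, 1 ≤ k → k ≤ p →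
  10 * L ≤ p → 1 ≤ c →
  (((Ico (c * 2 ^ (p + k - L)) ((c + 1) * 2 ^ (p + k - L))).filter
    (fun n => (rp (p + k) n).Prime ∧ (rp p (n / 2 ^ k)).Prime)).card : ℝ) ≤
      C * 2 ^ (p + k - L) * ((Real.log p / p) ^ 2 + Real.log p / p / 2 ^ k)

/-- lower bound for one exponent, uniform in the cell -/
def StL1 : Prop := ∃ η : ℝ, 0 < η ∧ ∃ K : ℕ, 0 < K ∧ ∀ s : ℕ, ∃ p₀ : ℕ, ∀ p : ℕ, p₀ ≤ p →
  ∀ L c : ℕ, K * L ≤ p → 1 ≤ c → c ≤ 2 ^ (L + s) →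
  η * 2 ^ (p - L) * (Real.log p / p) ≤
    (((Ico (c * 2 ^ (p - L)) ((c + 1) * 2 ^ (p - L))).filter (fun n => (rp p n).Prime)).card : ℝ)

/-- number of successful primes in the block `(2 ^ i, 2 ^ (i + 1)]`, as a function of the integer
`n` formed by the first `2 ^ (i + 1)` digits -/
def Yb (i n : ℕ) : ℕ := ((Ioc (2 ^ i) (2 ^ (i + 1))).filter
  (fun p => p.Prime ∧ (rp p (n / 2 ^ (2 ^ (i + 1) - p))).Prime)).card

/-- moments of the block counts, uniform in the cell -/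
def StE : Prop := ∃ (K : ℕ) (c₁ C₁ : ℝ), 0 < c₁ ∧ 0 < C₁ ∧ ∀ s : ℕ, ∃ i₀ : ℕ, K ≤ i₀ ∧
  ∀ i : ℕ, i₀ ≤ i → ∀ c : ℕ, 1 ≤ c → c ≤ 2 ^ (2 ^ (i - K) + s) →
    c₁ * 2 ^ (2 ^ (i + 1) - 2 ^ (i - K)) ≤
      ∑ n ∈ Ico (c * 2 ^ (2 ^ (i + 1) - 2 ^ (i - K))) ((c + 1) * 2 ^ (2 ^ (i + 1) - 2 ^ (i - K))),
        (Yb i n : ℝ) ∧
    ∑ n ∈ Ico (c * 2 ^ (2 ^ (i + 1) - 2 ^ (i - K))) ((c + 1) * 2 ^ (2 ^ (i + 1) - 2 ^ (i - K))),
        (Yb i n : ℝ) ^ 2 ≤ C₁ * 2 ^ (2 ^ (i + 1) - 2 ^ (i - K))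

/-- Chebyshev bounds for the primes in `(2 ^ i, 2 ^ (i + 1)]` -/
def StCh : Prop := ∃ a b : ℝ, 0 < a ∧ 0 < b ∧ ∃ i₀ : ℕ, ∀ i : ℕ, i₀ ≤ i →
  a * 2 ^ i / i ≤ (((Ioc (2 ^ i) (2 ^ (i + 1))).filter Nat.Prime).card : ℝ) ∧
  (((Ioc (2 ^ i) (2 ^ (i + 1))).filter Nat.Prime).card : ℝ) ≤ b * 2 ^ i / i

/-! ### The tasks -/

def TaskA : Prop := StA
def TaskB1 : Prop := StB1
def TaskB2 : Prop := StB2
def TaskL1 : Prop := Hoh → StL1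
def TaskU1 : Prop := StA → StB1 → StU1
def TaskU2 : Prop := StA → StB1 → StB2 → StU2
def TaskE1 : Prop := StCh → StU1 → StU2 → StL1 → StE
def TaskCh : Prop := StCh

end Pool.Agent.H555R4.LW
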