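import Pool.Agent.H555R4.LW.Stmts

set_option autoImplicit false

open Finset

namespace Pool.Agent.H555R4.LW.U1

theorem filter_prod_mul (l : List ℕ) (p : ℕ) :
    (l.filter (fun r => r ≤ p)).prod * (l.filter (fun r => p < r)).prod = l.prod := by
  induction l with
  | nil => simp
  | cons a l ih =>
    by_cases h : a ≤ p
    · have h' : ¬ p < a := by omega
      rw [List.filter_cons_of_pos (by simpa using h), List.filter_cons_of_neg (by simpa using h'),
        List.prod_cons, List.prod_cons, ← ih, mul_assoc]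
    · have h' : p < a := by omega
      rw [List.filter_cons_of_neg (by simpa using h), List.filter_cons_of_pos (by simpa using h'),
        List.prod_cons, List.prod_cons, ← ih]
      ring

theorem sp_mul_rp (p m : ℕ) (hm : m ≠ 0) : sp p m * rp p m = m := by
  unfold sp rp
  rw [filter_prod_mul, Nat.prod_primeFactorsList hm]

theorem dvd_rp (p m l : ℕ) (hm : m ≠ 0) (hl : l.Prime) (hpl : p < l) (h : l ∣ m) : l ∣ rp p m := by
  unfold rp
  apply List.dvd_prod
  rw [List.mem_filter]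
  exact ⟨(Nat.mem_primeFactorsList hm).2 ⟨hl, h⟩, by simpa using hpl⟩

theorem aux_pow (m : ℕ) (hm : 8 ≤ m) : 16 * m + 15 ≤ 2 ^ m := by
  induction m, hm using Nat.le_induction with
  | base => norm_num
  | succ m hm ih => rw [pow_succ]; omega

/-- the combinatorial inclusion -/
theorem incl (p n T : ℕ) (hp : 64 ≤ p) (hT : 2 ^ (p / 4 + p / 64 + 1) ≤ T) (hn : T ≤ n)
    (hs : sp p n ≤ 2 ^ (p / 4)) (hr : (rp p n).Prime) :
    ∀ l : ℕ, l.Prime → p < l → l ≤ 2 ^ (p / 64) → ¬ l ∣ n := by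
  intro l hl hpl hl2 hdvd
  have hTpos : 0 < T := lt_of_lt_of_le (by positivity) hT
  have hn0 : n ≠ 0 := by omega
  have h1 := dvd_rp p n l hn0 hl hpl hdvd
  have h2 : l = rp p n := (Nat.prime_dvd_prime_iff_eq hl hr).1 h1
  have h3 := sp_mul_rp p n hn0
  rw [← h2] at h3
  have h4 : sp p n * l ≤ 2 ^ (p / 4) * 2 ^ (p / 64) := Nat.mul_le_mul hs hl2
  rw [← pow_add] at h4
  have h5 : 2 ^ (p / 4 + p / 64 + 1) = 2 * 2 ^ (p / 4 + p / 64) := by rw [pow_succ]; ring
  have h6 : 0 < 2 ^ (p / 4 + p / 64) := by positivity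
  omega

theorem taskU1 : TaskU1 := by
  classical
  rintro ⟨p₁, hA⟩ ⟨C, hC, q₀, hB⟩
  refine ⟨C + 1, by linarith, max (max p₁ q₀) 128, ?_⟩
  intro p hp L c hL hc
  have hp1 : p₁ ≤ p := le_trans (le_trans (le_max_left _ _) (le_max_left _ _)) hp
  have hp2 : q₀ ≤ p := le_trans (le_trans (le_max_right _ _) (le_max_left _ _)) hp
  have hp3 : 128 ≤ p := le_trans (le_max_right _ _) hp
  set T := 2 ^ (p - L) with hTdef
  have hTpos : 0 < T := by positivity
  have hAT : (c + 1) * T = c * T + T := by ring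
  rw [hAT]
  have h2 : 2 ^ (p / 2) ≤ T := Nat.pow_le_pow_right (by norm_num) (by omega)
  have h4 : 2 ^ (p / 4) ≤ T := Nat.pow_le_pow_right (by norm_num) (by omega)
  have h5 : 2 ^ (p / 4 + p / 64 + 1) ≤ T := Nat.pow_le_pow_right (by norm_num) (by omega)
  have hS1 := hA p hp1 (c * T) T h2
  have hS2 := hB p hp2 (c * T) T h4
  have hsub : (Ico (c * T) (c * T + T)).filter (fun n => (rp p n).Prime) ⊆
      (Ico (c * T) (c * T + T)).filter (fun n => 0 < n ∧ 2 ^ (p / 4) < sp p n) ∪
      (Ico (c * T) (c * T + T)).filter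
        (fun m => ∀ l : ℕ, l.Prime → p < l → l ≤ 2 ^ (p / 64) → ¬ l ∣ m) := by
    intro n hn
    rw [mem_filter, mem_Ico] at hn
    obtain ⟨⟨hn1, hn2⟩, hn3⟩ := hn
    have hTn : T ≤ n := by nlinarith
    rw [mem_union, mem_filter, mem_filter, mem_Ico]
    by_cases hs : 2 ^ (p / 4) < sp p n
    · left; exact ⟨⟨hn1, hn2⟩, by omega, hs⟩
    · right
      exact ⟨⟨hn1, hn2⟩, incl p n T (by omega) h5 hTn (by omega) hn3⟩
  have hcard : (((Ico (c * T) (c * T + T)).filter (fun n => (rp p n).Prime)).card : ℝ) ≤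
      (T : ℝ) / 2 ^ (p / 16) + C * T * (Real.log p / p) := by
    have h6 := (card_le_card hsub).trans (card_union_le _ _)
    have h7 : (((Ico (c * T) (c * T + T)).filter (fun n => (rp p n).Prime)).card : ℝ) ≤
        (((Ico (c * T) (c * T + T)).filter (fun n => 0 < n ∧ 2 ^ (p / 4) < sp p n)).card : ℝ) +
        (((Ico (c * T) (c * T + T)).filter
          (fun m => ∀ l : ℕ, l.Prime → p < l → l ≤ 2 ^ (p / 64) → ¬ l ∣ m)).card : ℝ) := by
      exact_mod_cast h6
    refine h7.trans (add_le_add ?_ ?_)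
    · convert hS1 using 3
    · convert hS2 using 3
  have hlog : (1 : ℝ) / 2 ^ (p / 16) ≤ Real.log p / p := by
    have h8 := aux_pow (p / 16) (by omega)
    have h9 : p ≤ 2 ^ (p / 16) := by omega
    have h10 : (p : ℝ) ≤ 2 ^ (p / 16) := by exact_mod_cast h9
    have hp0 : (0 : ℝ) < p := by
      have : 0 < p := by omega
      exact_mod_cast this
    have hlog1 : 1 ≤ Real.log p := by
      rw [Real.le_log_iff_exp_le hp0]
      have h11 : Real.exp 1 < 3 := by
        have := Real.exp_one_lt_d9; linarith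
      have h12 : (128 : ℝ) ≤ p := by exact_mod_cast hp3
      linarith
    calc (1 : ℝ) / 2 ^ (p / 16) ≤ 1 / p := one_div_le_one_div_of_le hp0 h10
      _ ≤ Real.log p / p := div_le_div_of_nonneg_right hlog1 hp0.le
  have hTr : (T : ℝ) = 2 ^ (p - L) := by rw [hTdef]; push_cast; rfl
  have hTr0 : (0 : ℝ) ≤ T := by positivity
  calc (((Ico (c * T) (c * T + T)).filter (fun n => (rp p n).Prime)).card : ℝ)
      ≤ (T : ℝ) / 2 ^ (p / 16) + C * T * (Real.log p / p) := hcard
    _ = T * (1 / 2 ^ (p / 16)) + C * T * (Real.log p / p) := by ring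
    _ ≤ T * (Real.log p / p) + C * T * (Real.log p / p) := by
        have := mul_le_mul_of_nonneg_left hlog hTr0
        linarith
    _ = (C + 1) * 2 ^ (p - L) * (Real.log p / p) := by rw [← hTr]; ring

end Pool.Agent.H555R4.LW.U1
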