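import Pool.Agent.H555R4.LW.Stmts

set_option autoImplicit false

/-! Task U2: upper bound for two exponents, uniform in the cell. -/

open Finset

namespace Pool.Agent.H555R4.LW.U2

theorem sp_mul_rp (p m : ℕ) (hm : m ≠ 0) : sp p m * rp p m = m := by
  have h1 : (m.primeFactorsList.filter (fun r => decide (r ≤ p)) ++
      m.primeFactorsList.filter (fun r => !(decide (r ≤ p)))).Perm m.primeFactorsList :=
    List.filter_append_perm _ _
  have h2 := h1.prod_eq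
  rw [List.prod_append, Nat.prod_primeFactorsList hm] at h2
  have h3 : m.primeFactorsList.filter (fun r => !(decide (r ≤ p))) =
      m.primeFactorsList.filter (fun r => decide (p < r)) := by
    refine List.filter_congr ?_
    intro r _
    by_cases h : r ≤ p
    · simp [h, not_lt.2 h]
    · simp [h, not_le.1 h]
  rw [h3] at h2
  exact h2

theorem eq_rp {p m l : ℕ} (hm : m ≠ 0) (hp : (rp p m).Prime) (hl : l.Prime) (hlm : l ∣ m)
    (hpl : p < l) : l = rp p m := by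
  have h1 : l ∈ m.primeFactorsList.filter (fun r => p < r) := by
    rw [List.mem_filter]
    exact ⟨(Nat.mem_primeFactorsList hm).2 ⟨hl, hlm⟩, by simpa using hpl⟩
  have h2 : l ∣ rp p m := List.dvd_prod h1
  exact (Nat.prime_dvd_prime_iff_eq hl hp).1 h2

/-- if the smooth part is small then no prime between `p` and a small bound divides `m` -/
theorem no_small {p m a b l : ℕ} (hm : m ≠ 0) (hp : (rp p m).Prime)
    (hs : sp p m ≤ 2 ^ a) (hml : 2 ^ (a + b) < m) (hl : l.Prime) (hpl : p < l)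
    (hlb : l ≤ 2 ^ b) : ¬ l ∣ m := by
  intro hlm
  have h1 := eq_rp hm hp hl hlm hpl
  have h2 := sp_mul_rp p m hm
  have h3 : sp p m * rp p m ≤ 2 ^ a * 2 ^ b := Nat.mul_le_mul hs (by rw [← h1]; exact hlb)
  rw [h2, ← pow_add] at h3
  omega

theorem cnt {K : ℕ} (S R : Finset ℕ) (M : ℕ → Finset ℕ)
    (h : ∀ n ∈ S, n % K ∈ R ∧ n / K ∈ M (n % K)) : S.card ≤ ∑ r ∈ R, (M r).card := by
  rw [← Finset.card_sigma]
  refine Finset.card_le_card_of_injOn (fun n => (⟨n % K, n / K⟩ : Σ _ : ℕ, ℕ)) ?_ ?_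
  · intro n hn
    have := h n hn
    simp only [Finset.mem_sigma, Finset.coe_sigma, Set.mem_sigma_iff, Finset.mem_coe]
    exact this
  · intro a _ b _ hab
    simp only [Sigma.mk.injEq, heq_eq_eq] at hab
    rw [← Nat.div_add_mod a K, ← Nat.div_add_mod b K, hab.1, hab.2]

theorem pow_bound : ∀ t : ℕ, 17 ≤ t → 256 * (t + 1) ^ 2 ≤ 2 ^ t := by
  intro t ht
  induction t, ht using Nat.le_induction with
  | base => norm_num
  | succ t ht ih =>
    rw [pow_succ 2 t]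
    nlinarith

theorem small_pow (p : ℕ) (hp : 272 ≤ p) :
    (1 : ℝ) / 2 ^ (p / 16) ≤ (Real.log p / p) ^ 2 := by
  have h1 : p ^ 2 ≤ 2 ^ (p / 16) := by
    have h2 := pow_bound (p / 16) (by omega)
    have h3 : p ≤ 16 * (p / 16 + 1) := by omega
    calc p ^ 2 ≤ (16 * (p / 16 + 1)) ^ 2 := Nat.pow_le_pow_left h3 2
      _ = 256 * (p / 16 + 1) ^ 2 := by ring
      _ ≤ _ := h2
  have hp0 : (0 : ℝ) < p := by
    have : 0 < p := by omega
    exact_mod_cast this
  have h4 : (1 : ℝ) ≤ Real.log p := by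
    rw [Real.le_log_iff_exp_le hp0]
    have : (272 : ℝ) ≤ p := by exact_mod_cast hp
    have h5 := Real.exp_one_lt_d9
    linarith
  have h5 : ((p : ℝ)) ^ 2 ≤ 2 ^ (p / 16) := by exact_mod_cast h1
  rw [div_pow]
  rw [div_le_div_iff₀ (by positivity) (by positivity)]
  have h6 : (1 : ℝ) ≤ Real.log p ^ 2 := by nlinarith
  nlinarith [pow_pos (show (0:ℝ) < 2 by norm_num) (p / 16)]

theorem log_mono {p q : ℕ} (hp : 3 ≤ p) (hpq : p ≤ q) :
    Real.log q / q ≤ Real.log p / p := by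
  have h3 : Real.exp 1 ≤ (p : ℝ) := by
    have : (3 : ℝ) ≤ p := by exact_mod_cast hp
    have h5 := Real.exp_one_lt_d9
    linarith
  have hpq' : (p : ℝ) ≤ q := by exact_mod_cast hpq
  exact Real.log_div_self_antitoneOn (show (p : ℝ) ∈ {x | Real.exp 1 ≤ x} from h3)
    (show (q : ℝ) ∈ {x | Real.exp 1 ≤ x} from h3.trans hpq') hpq'

open Classical in
theorem taskU2 : TaskU2 := by
  rintro ⟨pA, hA⟩ ⟨C1, hC1, q1, hB1⟩ ⟨C2, hC2, q2, hB2⟩
  refine ⟨C1 + C2 + 2, by positivity, max (max pA q1) (max q2 272), ?_⟩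
  intro p hp k L c hk hkp hL hc
  have hpA : pA ≤ p := le_trans (le_trans (le_max_left _ _) (le_max_left _ _)) hp
  have hp1 : q1 ≤ p := le_trans (le_trans (le_max_right _ _) (le_max_left _ _)) hp
  have hp2 : q2 ≤ p := le_trans (le_trans (le_max_left _ _) (le_max_right _ _)) hp
  have h272 : 272 ≤ p := le_trans (le_trans (le_max_right _ _) (le_max_right _ _)) hp
  obtain ⟨q, hq⟩ : ∃ q, q = p + k := ⟨_, rfl⟩
  rw [← hq]
  have hTnm : 2 ^ (q - L) = 2 ^ k * 2 ^ (p - L) := by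
    rw [← pow_add]; congr 1; omega
  have hK : 0 < 2 ^ k := by positivity
  -- the four sets
  set Cell := Ico (c * 2 ^ (q - L)) ((c + 1) * 2 ^ (q - L)) with hCell
  have hcell : ∀ n ∈ Cell, n / 2 ^ k ∈ Ico (c * 2 ^ (p - L)) (c * 2 ^ (p - L) + 2 ^ (p - L)) := by
    intro n hn
    rw [hCell, Finset.mem_Ico, hTnm] at hn
    rw [Finset.mem_Ico]
    constructor
    · rw [Nat.le_div_iff_mul_le hK]
      calc c * 2 ^ (p - L) * 2 ^ k = c * (2 ^ k * 2 ^ (p - L)) := by ring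
        _ ≤ n := hn.1
    · rw [Nat.div_lt_iff_lt_mul hK]
      calc n < (c + 1) * (2 ^ k * 2 ^ (p - L)) := hn.2
        _ = _ := by ring
  let M2 : Finset ℕ := (Ico (c * 2 ^ (p - L)) (c * 2 ^ (p - L) + 2 ^ (p - L))).filter
    (fun n => 0 < n ∧ 2 ^ (p / 4) < sp p n)
  let M3 : ℕ → Finset ℕ := fun r => (Ico (c * 2 ^ (p - L)) (c * 2 ^ (p - L) + 2 ^ (p - L))).filter
    (fun m => ∀ l : ℕ, l.Prime → q < l → l ≤ 2 ^ (q / 64) →
      ¬ l ∣ m ∧ ¬ l ∣ 2 ^ k * m + r)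
  let M4 : Finset ℕ := (Ico (c * 2 ^ (p - L)) (c * 2 ^ (p - L) + 2 ^ (p - L))).filter
    (fun m => ∀ l : ℕ, l.Prime → q < l → l ≤ 2 ^ (q / 64) → ¬ l ∣ m)
  let S1 : Finset ℕ := (Ico (c * 2 ^ (q - L)) (c * 2 ^ (q - L) + 2 ^ (q - L))).filter
    (fun n => 0 < n ∧ 2 ^ (q / 4) < sp q n)
  let S2 : Finset ℕ := Cell.filter (fun n => n / 2 ^ k ∈ M2)
  let S3 : Finset ℕ := Cell.filter (fun n => n % 2 ^ k ≠ 0 ∧ n / 2 ^ k ∈ M3 (n % 2 ^ k))
  let S4 : Finset ℕ := Cell.filter (fun n => n % 2 ^ k = 0 ∧ n / 2 ^ k ∈ M4)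
  have hsub : Cell.filter (fun n => (rp q n).Prime ∧ (rp p (n / 2 ^ k)).Prime) ⊆
      S1 ∪ (S2 ∪ (S3 ∪ S4)) := by
    intro n hn
    rw [Finset.mem_filter] at hn
    obtain ⟨hnC, hnq, hnp⟩ := hn
    have hmC := hcell n hnC
    have hmC' := Finset.mem_Ico.1 hmC
    have hnC' := Finset.mem_Ico.1 (hCell ▸ hnC)
    have hn1 : 2 ^ (q - L) ≤ n := le_trans (Nat.le_mul_of_pos_left _ hc) hnC'.1
    have hm1 : 2 ^ (p - L) ≤ n / 2 ^ k := le_trans (Nat.le_mul_of_pos_left _ hc) hmC'.1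
    have hnpos : 0 < n := lt_of_lt_of_le (by positivity) hn1
    have hmpos : 0 < n / 2 ^ k := lt_of_lt_of_le (by positivity) hm1
    by_cases h1 : 2 ^ (q / 4) < sp q n
    · refine Finset.mem_union_left _ ?_
      refine Finset.mem_filter.2 ⟨?_, hnpos, h1⟩
      rw [Finset.mem_Ico]
      refine ⟨hnC'.1, ?_⟩
      calc n < (c + 1) * 2 ^ (q - L) := hnC'.2
        _ = _ := by ring
    refine Finset.mem_union_right _ ?_
    by_cases h2 : 2 ^ (p / 4) < sp p (n / 2 ^ k)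
    · refine Finset.mem_union_left _ ?_
      exact Finset.mem_filter.2 ⟨hnC, Finset.mem_filter.2 ⟨hmC, hmpos, h2⟩⟩
    refine Finset.mem_union_right _ ?_
    rw [not_lt] at h1 h2
    have hA1 : ∀ l : ℕ, l.Prime → q < l → l ≤ 2 ^ (q / 64) → ¬ l ∣ n / 2 ^ k := by
      intro l hl hql hlb
      refine no_small (a := p / 4) (b := q / 64) hmpos.ne' hnp h2 ?_ hl (by omega) hlb
      refine lt_of_lt_of_le ?_ hm1
      exact Nat.pow_lt_pow_right (by norm_num) (by omega)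
    have hA2 : ∀ l : ℕ, l.Prime → q < l → l ≤ 2 ^ (q / 64) → ¬ l ∣ n := by
      intro l hl hql hlb
      refine no_small (a := q / 4) (b := q / 64) hnpos.ne' hnq h1 ?_ hl hql hlb
      refine lt_of_lt_of_le ?_ hn1
      exact Nat.pow_lt_pow_right (by norm_num) (by omega)
    by_cases h3 : n % 2 ^ k = 0
    · refine Finset.mem_union_right _ ?_
      exact Finset.mem_filter.2 ⟨hnC, h3, Finset.mem_filter.2 ⟨hmC, hA1⟩⟩
    · refine Finset.mem_union_left _ ?_
      refine Finset.mem_filter.2 ⟨hnC, h3, Finset.mem_filter.2 ⟨hmC, ?_⟩⟩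
      intro l hl hql hlb
      refine ⟨hA1 l hl hql hlb, ?_⟩
      rw [Nat.div_add_mod]
      exact hA2 l hl hql hlb
  have hcard1 : ((Cell.filter (fun n => (rp q n).Prime ∧ (rp p (n / 2 ^ k)).Prime)).card : ℝ) ≤
      (S1.card : ℝ) + S2.card + S3.card + S4.card := by
    have h1 := Finset.card_le_card hsub
    have h2 := Finset.card_union_le S1 (S2 ∪ (S3 ∪ S4))
    have h3 := Finset.card_union_le S2 (S3 ∪ S4)
    have h4 := Finset.card_union_le S3 S4
    have h5 : (Cell.filter (fun n => (rp q n).Prime ∧ (rp p (n / 2 ^ k)).Prime)).card ≤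
      S1.card + S2.card + S3.card + S4.card := by omega
    exact_mod_cast h5
  -- real quantities
  obtain ⟨x, hx⟩ : ∃ x : ℝ, x = Real.log p / p := ⟨_, rfl⟩
  obtain ⟨y, hy⟩ : ∃ y : ℝ, y = Real.log q / q := ⟨_, rfl⟩
  have hyx : y ≤ x := by rw [hx, hy]; exact log_mono (by omega) (by omega)
  have hy0 : 0 ≤ y := by
    rw [hy]
    exact div_nonneg (Real.log_natCast_nonneg q) (Nat.cast_nonneg q)
  have hx0 : 0 ≤ x := hy0.trans hyx
  have hw : (1 : ℝ) / 2 ^ (p / 16) ≤ x ^ 2 := by rw [hx]; exact small_pow p h272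
  obtain ⟨Tm, hTm⟩ : ∃ T : ℝ, T = 2 ^ (p - L) := ⟨_, rfl⟩
  obtain ⟨K, hKr⟩ : ∃ T : ℝ, T = 2 ^ k := ⟨_, rfl⟩
  have hTm0 : 0 < Tm := by rw [hTm]; positivity
  have hK0 : 0 < K := by rw [hKr]; positivity
  have hTn : (2 : ℝ) ^ (q - L) = K * Tm := by
    rw [hKr, hTm]
    exact_mod_cast hTnm
  have e1 : (S1.card : ℝ) ≤ K * Tm * x ^ 2 := by
    have h1 := hA q (by omega) (c * 2 ^ (q - L)) (2 ^ (q - L))
      (Nat.pow_le_pow_right (by norm_num) (by omega))
    have h2 : (S1.card : ℝ) ≤ ((2 ^ (q - L) : ℕ) : ℝ) / 2 ^ (q / 16) := by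
      convert h1 using 2
    refine h2.trans ?_
    push_cast
    rw [hTn, div_eq_mul_one_div]
    refine mul_le_mul_of_nonneg_left ?_ (by positivity)
    refine le_trans ?_ hw
    refine one_div_le_one_div_of_le (by positivity) ?_
    exact pow_le_pow_right₀ (by norm_num) (by omega)
  have e2 : (S2.card : ℝ) ≤ K * Tm * x ^ 2 := by
    have h1 := hA p hpA (c * 2 ^ (p - L)) (2 ^ (p - L))
      (Nat.pow_le_pow_right (by norm_num) (by omega))
    have h2 : (M2.card : ℝ) ≤ ((2 ^ (p - L) : ℕ) : ℝ) / 2 ^ (p / 16) := by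
      convert h1 using 2
    have h3 : S2.card ≤ ∑ r ∈ range (2 ^ k), M2.card := by
      refine cnt (K := 2 ^ k) S2 (range (2 ^ k)) (fun _ => M2) ?_
      intro n hn
      exact ⟨Finset.mem_range.2 (Nat.mod_lt _ hK), (Finset.mem_filter.1 hn).2⟩
    rw [Finset.sum_const, Finset.card_range, smul_eq_mul] at h3
    have h4 : (S2.card : ℝ) ≤ K * M2.card := by
      rw [hKr]; exact_mod_cast h3
    refine h4.trans ?_
    rw [mul_assoc]
    refine mul_le_mul_of_nonneg_left ?_ hK0.le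
    refine h2.trans ?_
    push_cast
    rw [← hTm, div_eq_mul_one_div]
    exact mul_le_mul_of_nonneg_left hw hTm0.le
  have e3 : (S3.card : ℝ) ≤ C2 * (K * Tm) * x ^ 2 := by
    have h3 : S3.card ≤ ∑ r ∈ Ico 1 (2 ^ k), (M3 r).card := by
      refine cnt (K := 2 ^ k) S3 (Ico 1 (2 ^ k)) M3 ?_
      intro n hn
      have h := (Finset.mem_filter.1 hn).2
      refine ⟨Finset.mem_Ico.2 ⟨Nat.one_le_iff_ne_zero.2 h.1, Nat.mod_lt _ hK⟩, h.2⟩
    have h4 : ∀ r ∈ Ico 1 (2 ^ k), ((M3 r).card : ℝ) ≤ C2 * Tm * x ^ 2 := by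
      intro r hr
      rw [Finset.mem_Ico] at hr
      have h1 := hB2 q (by omega) (c * 2 ^ (p - L)) (2 ^ (p - L)) k r
        (Nat.pow_le_pow_right (by norm_num) (by omega)) (by omega) (by omega) hr.2
      have h2 : ((M3 r).card : ℝ) ≤ C2 * ((2 ^ (p - L) : ℕ) : ℝ) * (Real.log q / q) ^ 2 := by
        convert h1 using 2
      refine h2.trans ?_
      push_cast
      rw [← hTm, ← hy]
      exact mul_le_mul_of_nonneg_left (pow_le_pow_left₀ hy0 hyx 2) (by positivity)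
    have h5 : (S3.card : ℝ) ≤ ∑ r ∈ Ico 1 (2 ^ k), ((M3 r).card : ℝ) := by exact_mod_cast h3
    refine h5.trans ((Finset.sum_le_sum h4).trans ?_)
    rw [Finset.sum_const, Nat.card_Ico, nsmul_eq_mul]
    have h6 : ((2 ^ k - 1 : ℕ) : ℝ) ≤ K := by
      rw [hKr]
      have : 2 ^ k - 1 ≤ 2 ^ k := Nat.sub_le _ _
      exact_mod_cast this
    calc ((2 ^ k - 1 : ℕ) : ℝ) * (C2 * Tm * x ^ 2) ≤ K * (C2 * Tm * x ^ 2) :=
          mul_le_mul_of_nonneg_right h6 (by positivity)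
      _ = _ := by ring
  have e4 : (S4.card : ℝ) ≤ C1 * Tm * x := by
    have h3 : S4.card ≤ ∑ r ∈ ({0} : Finset ℕ), M4.card := by
      refine cnt (K := 2 ^ k) S4 {0} (fun _ => M4) ?_
      intro n hn
      have h := (Finset.mem_filter.1 hn).2
      exact ⟨Finset.mem_singleton.2 h.1, h.2⟩
    rw [Finset.sum_singleton] at h3
    have h1 := hB1 q (by omega) (c * 2 ^ (p - L)) (2 ^ (p - L))
        (Nat.pow_le_pow_right (by norm_num) (by omega))
    have h2 : (M4.card : ℝ) ≤ C1 * ((2 ^ (p - L) : ℕ) : ℝ) * (Real.log q / q) := by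
      convert h1 using 2
    have h4 : (S4.card : ℝ) ≤ M4.card := by exact_mod_cast h3
    refine h4.trans (h2.trans ?_)
    push_cast
    rw [← hTm, ← hy]
    exact mul_le_mul_of_nonneg_left hyx (by positivity)
  rw [hTn, ← hx, ← hKr]
  refine hcard1.trans ?_
  have e5 : C1 * Tm * x = C1 * (K * Tm) * (x / K) := by
    field_simp
  have h7 : 0 ≤ x / K := div_nonneg hx0 hK0.le
  have h8 : 0 ≤ K * Tm := by positivity
  have h9 : 0 ≤ C1 * (K * Tm) * x ^ 2 := by positivity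
  have h10 : 0 ≤ (C2 + 2) * (K * Tm) * (x / K) := by positivity
  have e6 : (C1 + C2 + 2) * (K * Tm) * (x ^ 2 + x / K) =
      K * Tm * x ^ 2 + K * Tm * x ^ 2 + C2 * (K * Tm) * x ^ 2 + C1 * (K * Tm) * (x / K) +
      C1 * (K * Tm) * x ^ 2 + (C2 + 2) * (K * Tm) * (x / K) := by ring
  rw [e6, ← e5]
  linarith

end Pool.Agent.H555R4.LW.U2
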