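import Pool.Agent.H555R4.LW.Stmts

set_option autoImplicit false

/-!
# Few integers in an interval have a large smooth part
-/

open Finset

namespace Pool.Agent.H555R4.LW.A

open Pool.Agent.H555R4.LW

/-- a product of factors `≤ p` which exceeds `B` has a subproduct in `(B, p B]` -/
lemma exists_sub (p B : ℕ) (hB : 1 ≤ B) : ∀ l : List ℕ, (∀ a ∈ l, a ≤ p) → B < l.prod →
    ∃ l' : List ℕ, l'.Sublist l ∧ B < l'.prod ∧ l'.prod ≤ p * B
  | [], _, h => by
      simp at h
      omega
  | a :: t, hl, h => by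
      by_cases ht : B < t.prod
      · obtain ⟨l', h1, h2, h3⟩ := exists_sub p B hB t (fun x hx => hl x (List.mem_cons_of_mem _ hx)) ht
        exact ⟨l', h1.trans (List.sublist_cons_self a t), h2, h3⟩
      · refine ⟨a :: t, List.Sublist.refl _, h, ?_⟩
        rw [List.prod_cons]
        exact Nat.mul_le_mul (hl a (List.mem_cons_self)) (by omega)

lemma exists_div (p B n : ℕ) (hB : 1 ≤ B) (hn : 0 < n) (h : B < sp p n) :
    ∃ v ∈ (Nat.smoothNumbersUpTo (p * B) (p + 1)).filter (fun v => B < v), v ∣ n := by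
  obtain ⟨l', h1, h2, h3⟩ := exists_sub p B hB _ (by
    intro a ha
    have := List.of_mem_filter ha
    simpa using this) h
  refine ⟨l'.prod, ?_, ?_⟩
  · rw [mem_filter, Nat.mem_smoothNumbersUpTo, Nat.mem_smoothNumbers']
    refine ⟨⟨h3, ?_⟩, h2⟩
    intro q hq hqd
    obtain ⟨a, ha, hqa⟩ := (Prime.dvd_prod_iff hq.prime).1 hqd
    have ha2 := h1.subset ha
    rw [List.mem_filter] at ha2
    have hap := Nat.prime_of_mem_primeFactorsList ha2.1
    have := (Nat.prime_dvd_prime_iff_eq hq hap).1 hqa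
    have h4 : a ≤ p := by simpa using ha2.2
    omega
  · have h4 : l'.prod ∣ (n.primeFactorsList).prod :=
      List.Sublist.prod_dvd_prod (h1.trans List.filter_sublist)
    rwa [Nat.prod_primeFactorsList hn.ne'] at h4

lemma card_mult (A T q : ℕ) (hq : 0 < q) :
    ((Ico A (A + T)).filter (fun n => q ∣ n)).card ≤ T / q + 1 := by
  have h1 : ((Ico A (A + T)).filter (fun n => q ∣ n)).card ≤ (Icc (A / q + (if q ∣ A then 0 else 1)) ((A / q + (if q ∣ A then 0 else 1)) + T / q)).card := by
    apply Finset.card_le_card_of_injOn (fun n => n / q)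
    · intro n hn
      simp only [coe_filter, mem_Ico, Set.mem_ofPred_eq] at hn
      obtain ⟨⟨h1, h2⟩, k, rfl⟩ := hn
      simp only [coe_Icc, Set.mem_Icc]
      rw [Nat.mul_div_cancel_left _ hq]
      constructor
      · split_ifs with hA
        · obtain ⟨a, rfl⟩ := hA
          rw [Nat.mul_div_cancel_left _ hq]
          simpa using Nat.le_of_mul_le_mul_left h1 hq
        · have : A < q * k := by
            rcases Nat.lt_or_ge A (q * k) with h | h
            · exact h
            · exact absurd (Dvd.intro k (le_antisymm h h1).symm.symm) (by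
                intro h'
                exact hA (by rw [le_antisymm h1 h]; exact Dvd.intro _ rfl))
          have := Nat.div_lt_of_lt_mul this
          omega
      · split_ifs with hA
        · obtain ⟨a, rfl⟩ := hA
          rw [Nat.mul_div_cancel_left _ hq]
          have h3 : q * k ≤ q * a + T := by omega
          have h4 := Nat.div_le_div_right (c := q) h3
          rw [Nat.mul_div_cancel_left _ hq, Nat.mul_add_div hq] at h4
          omega
        · have h3 : q * k ≤ q * (A / q + 1) + T := by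
            have := Nat.lt_mul_div_succ A hq
            have h5 : A ≤ q * (A / q + 1) := by omega
            omega
          have h4 := Nat.div_le_div_right (c := q) h3
          rw [Nat.mul_div_cancel_left _ hq, Nat.mul_add_div hq] at h4
          omega
    · intro n hn m hm hnm
      simp only [coe_filter, mem_Ico, Set.mem_ofPred_eq] at hn hm
      obtain ⟨_, k, rfl⟩ := hn
      obtain ⟨_, j, rfl⟩ := hm
      simp only [Nat.mul_div_cancel_left _ hq] at hnm
      rw [hnm]
  rw [Nat.card_Icc] at h1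
  generalize A / q + (if q ∣ A then 0 else 1) = c at h1
  generalize T / q = b at h1 ⊢
  omega

/-- `π(p) ≤ p / 64` for large `p` -/
lemma pi_small : ∃ p₀ : ℕ, ∀ p : ℕ, p₀ ≤ p → 64 * Nat.primeCounting p ≤ p := by
  have h1 := Chebyshev.eventually_primeCounting_le (ε := 1) one_pos
  have h2 : ∀ᶠ x : ℝ in Filter.atTop, 64 * (Real.log 4 + 1) ≤ Real.log x :=
    Real.tendsto_log_atTop.eventually_ge_atTop _
  have h3 : ∀ᶠ x : ℝ in Filter.atTop, (1 : ℝ) < x := Filter.eventually_gt_atTop 1
  obtain ⟨X, hX⟩ := Filter.eventually_atTop.1 ((h1.and h2).and h3)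
  refine ⟨⌈X⌉₊, fun p hp => ?_⟩
  obtain ⟨⟨h4, h5⟩, h6⟩ := hX p ((Nat.le_ceil X).trans (by exact_mod_cast hp))
  rw [Nat.floor_natCast] at h4
  have hlog : 0 < Real.log p := Real.log_pos h6
  have h7 : (Nat.primeCounting p : ℝ) * 64 ≤ p := by
    have : (Real.log 4 + 1) * (p : ℝ) / Real.log p * 64 ≤ p := by
      rw [div_mul_eq_mul_div, div_le_iff₀ hlog]
      nlinarith
    nlinarith
  have : Nat.primeCounting p * 64 ≤ p := by exact_mod_cast h7
  omega

lemma two_pow_large : ∃ p₀ : ℕ, ∀ p : ℕ, p₀ ≤ p → p ≤ 2 ^ (p / 64) := by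
  refine ⟨64 * 16, fun p hp => ?_⟩
  have h : ∀ m : ℕ, 16 ≤ m → 64 * m + 64 ≤ 2 ^ m := by
    intro m hm
    induction m, hm using Nat.le_induction with
    | base => norm_num
    | succ m hm ih =>
      rw [pow_succ]
      omega
  have h1 := h (p / 64) (by omega)
  omega

theorem taskA : Pool.Agent.H555R4.LW.TaskA := by
  obtain ⟨p₁, hp₁⟩ := pi_small
  obtain ⟨p₂, hp₂⟩ := two_pow_large
  refine ⟨p₁ + p₂ + 1000, fun p hp A T hT => ?_⟩
  have hpi := hp₁ p (by omega)
  have hpp := hp₂ p (by omega)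
  set B : ℕ := 2 ^ (p / 4) with hBdef
  have hB1 : 1 ≤ B := Nat.one_le_two_pow
  set V := (Nat.smoothNumbersUpTo (p * B) (p + 1)).filter (fun v => B < v) with hV
  have hcount : ((Ico A (A + T)).filter (fun n => 0 < n ∧ B < sp p n)).card ≤
      V.card * (T / B + 1) := by
    have hsub : (Ico A (A + T)).filter (fun n => 0 < n ∧ B < sp p n) ⊆
        V.biUnion (fun v => (Ico A (A + T)).filter (fun n => v ∣ n)) := by
      intro n hn
      rw [mem_filter] at hn
      obtain ⟨hn1, hn2, hn3⟩ := hn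
      obtain ⟨v, hv, hvn⟩ := exists_div p B n hB1 hn2 hn3
      rw [mem_biUnion]
      exact ⟨v, hv, mem_filter.2 ⟨hn1, hvn⟩⟩
    refine (card_le_card hsub).trans (card_biUnion_le.trans ?_)
    rw [← smul_eq_mul]
    apply Finset.sum_le_card_nsmul
    intro v hv
    have hBv : B < v := (mem_filter.1 hv).2
    refine (card_mult A T v (by omega)).trans ?_
    have := Nat.div_le_div_left (c := B) (b := v) (a := T) hBv.le (by omega)
    exact Nat.add_le_add_right this 1
  have hVcard : V.card ≤ 2 ^ (Nat.primeCounting p) * (p * 2 ^ (p / 8 + 1)) := by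
    refine (card_le_card (filter_subset _ _)).trans ((Nat.smoothNumbersUpTo_card_le _ _).trans ?_)
    have h1 : (p + 1).primesBelow.card = Nat.primeCounting p := by
      rw [Nat.primesBelow_card_eq_primeCounting']
      rfl
    rw [h1]
    apply Nat.mul_le_mul_left
    have h2 : p * B ≤ (p * 2 ^ (p / 8 + 1)) * (p * 2 ^ (p / 8 + 1)) := by
      have h3 : B ≤ 2 ^ (p / 8 + 1) * 2 ^ (p / 8 + 1) := by
        rw [hBdef, ← pow_add]
        exact Nat.pow_le_pow_right (by norm_num) (by omega)
      calc p * B ≤ (p * p) * (2 ^ (p / 8 + 1) * 2 ^ (p / 8 + 1)) :=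
            Nat.mul_le_mul (Nat.le_mul_self p) h3
        _ = _ := by ring
    calc (p * B).sqrt ≤ ((p * 2 ^ (p / 8 + 1)) * (p * 2 ^ (p / 8 + 1))).sqrt := Nat.sqrt_le_sqrt h2
      _ = _ := Nat.sqrt_eq _
  have hBT : B ≤ T := le_trans (Nat.pow_le_pow_right (by norm_num) (by omega)) hT
  have hBpos : (0 : ℝ) < (B : ℝ) := by exact_mod_cast hB1
  have h1 : ((T / B + 1 : ℕ) : ℝ) ≤ 2 * T / B := by
    have h2 : ((T / B : ℕ) : ℝ) ≤ (T : ℝ) / B := Nat.cast_div_le
    have h3 : (1 : ℝ) ≤ (T : ℝ) / B := by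
      rw [le_div_iff₀ hBpos, one_mul]
      exact_mod_cast hBT
    push_cast
    have h4 : (2 : ℝ) * T / B = T / B + T / B := by ring
    rw [h4]
    exact add_le_add h2 h3
  have h2 : (((Ico A (A + T)).filter (fun n => 0 < n ∧ B < sp p n)).card : ℝ) ≤
      (V.card : ℝ) * (2 * T / B) := by
    calc (((Ico A (A + T)).filter (fun n => 0 < n ∧ B < sp p n)).card : ℝ)
        ≤ ((V.card * (T / B + 1) : ℕ) : ℝ) := by exact_mod_cast hcount
      _ = (V.card : ℝ) * ((T / B + 1 : ℕ) : ℝ) := by push_cast; ring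
      _ ≤ _ := mul_le_mul_of_nonneg_left h1 (Nat.cast_nonneg _)
  refine h2.trans ?_
  have h3 : V.card * 2 * 2 ^ (p / 16) ≤ B := by
    calc V.card * 2 * 2 ^ (p / 16)
        ≤ (2 ^ (Nat.primeCounting p) * (p * 2 ^ (p / 8 + 1))) * 2 * 2 ^ (p / 16) := by gcongr
      _ ≤ (2 ^ (Nat.primeCounting p) * (2 ^ (p / 64) * 2 ^ (p / 8 + 1))) * 2 * 2 ^ (p / 16) := by
          gcongr
      _ = 2 ^ (Nat.primeCounting p + p / 64 + (p / 8 + 1) + 1 + p / 16) := by
          simp only [pow_add]
          ring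
      _ ≤ 2 ^ (p / 4) := Nat.pow_le_pow_right (by norm_num) (by omega)
  have h4 : (V.card : ℝ) * 2 * 2 ^ (p / 16) ≤ B := by exact_mod_cast h3
  rw [le_div_iff₀ (by positivity), mul_div_assoc', div_mul_eq_mul_div, div_le_iff₀ hBpos]
  calc (V.card : ℝ) * (2 * T) * 2 ^ (p / 16) = T * (V.card * 2 * 2 ^ (p / 16)) := by ring
    _ ≤ T * B := mul_le_mul_of_nonneg_left h4 (Nat.cast_nonneg _)

end Pool.Agent.H555R4.LW.A
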