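import Mathlib
import Pool.Agent.Erdos456.Mertens

set_option autoImplicit false

/-!
Lower bound for the reciprocal sum of the squarefree integers `e ≤ z` all of whose prime factors
are larger than `q` and do not divide `r` (used in tasks B1 and B2).
-/

open Finset

namespace Pool.Agent.H555R4.LW.Rough

open Classical in
/-- squarefree integers up to `z`, all prime factors of which exceed `q` and do not divide `r` -/
noncomputable def ER (z q r : ℕ) : Finset ℕ :=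
  (Icc 1 z).filter (fun e => Squarefree e ∧ ∀ l ∈ e.primeFactors, q < l ∧ ¬ l ∣ r)

lemma mem_ER {z q r e : ℕ} : e ∈ ER z q r ↔
    (1 ≤ e ∧ e ≤ z) ∧ Squarefree e ∧ ∀ l ∈ e.primeFactors, q < l ∧ ¬ l ∣ r := by
  classical
  rw [ER, Finset.mem_filter, Finset.mem_Icc]

lemma one_mem_ER {z q r : ℕ} (hz : 1 ≤ z) : 1 ∈ ER z q r := by
  rw [mem_ER]
  exact ⟨⟨le_rfl, hz⟩, squarefree_one, by simp⟩

lemma decomp (z q r : ℕ) (B : Finset ℕ) (hB : ∀ l, l.Prime → l ∉ B → q < l ∧ ¬ l ∣ r) :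
    ∑ n ∈ Icc 1 z, (1 : ℝ) / n ≤ (∑ h ∈ Icc 1 z, (1 : ℝ) / (h : ℝ) ^ 2) *
      ((∏ l ∈ B, (1 + 1 / (l : ℝ))) * ∑ e ∈ ER z q r, (1 : ℝ) / e) := by
  classical
  have hex : ∀ n : ℕ, ∃ ab : ℕ × ℕ, 0 < n →
      0 < ab.1 ∧ 0 < ab.2 ∧ ab.2 ^ 2 * ab.1 = n ∧ Squarefree ab.1 := by
    intro n
    by_cases hn : 0 < n
    · obtain ⟨a, b, h⟩ := Nat.sq_mul_squarefree_of_pos hn
      exact ⟨(a, b), fun _ => h⟩
    · exact ⟨(0, 0), fun h => absurd h hn⟩
  choose ab hab using hex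
  let φ : ℕ → ℕ × (Finset ℕ × ℕ) := fun n =>
    ((ab n).2, ((ab n).1.primeFactors ∩ B, ∏ p ∈ (ab n).1.primeFactors \ B, p))
  let ψ : ℕ × (Finset ℕ × ℕ) → ℕ := fun x => x.1 ^ 2 * ((∏ p ∈ x.2.1, p) * x.2.2)
  let G : ℕ × (Finset ℕ × ℕ) → ℝ := fun x =>
    1 / (x.1 : ℝ) ^ 2 * ((∏ l ∈ x.2.1, 1 / (l : ℝ)) * (1 / (x.2.2 : ℝ)))
  have hψφ : ∀ n, 0 < n → ψ (φ n) = n := by
    intro n hn
    obtain ⟨h1, h2, h3, h4⟩ := hab n hn
    simp only [ψ, φ]
    rw [Finset.prod_inter_mul_prod_sdiff, Nat.prod_primeFactors_of_squarefree h4, h3]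
  have hGψ : ∀ x, G x = 1 / (ψ x : ℝ) := by
    intro x
    simp only [G, ψ]
    push_cast
    rw [Finset.prod_div_distrib, Finset.prod_const_one]
    rw [one_div_mul_one_div, one_div_mul_one_div]
  have hR : (∑ h ∈ Icc 1 z, (1 : ℝ) / (h : ℝ) ^ 2) *
      ((∏ l ∈ B, (1 + 1 / (l : ℝ))) * ∑ e ∈ ER z q r, (1 : ℝ) / e) =
      ∑ x ∈ (Icc 1 z) ×ˢ (B.powerset ×ˢ ER z q r), G x := by
    rw [Finset.sum_product]
    simp only [Finset.sum_product]
    rw [Finset.prod_one_add, Finset.sum_mul_sum, Finset.sum_mul]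
    refine Finset.sum_congr rfl (fun h _ => ?_)
    rw [Finset.mul_sum]
    refine Finset.sum_congr rfl (fun t _ => ?_)
    rw [Finset.mul_sum]
  rw [hR]
  have hL : ∑ n ∈ Icc 1 z, (1 : ℝ) / n = ∑ n ∈ Icc 1 z, G (φ n) := by
    refine Finset.sum_congr rfl (fun n hn => ?_)
    rw [hGψ, hψφ n (Finset.mem_Icc.1 hn).1]
  rw [hL, ← Finset.sum_image (s := Icc 1 z) (g := φ) (f := G)]
  · refine Finset.sum_le_sum_of_subset_of_nonneg ?_ (fun x _ _ => by rw [hGψ]; positivity)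
    intro x hx
    obtain ⟨n, hn, rfl⟩ := Finset.mem_image.1 hx
    rw [Finset.mem_Icc] at hn
    obtain ⟨h1, h2, h3, h4⟩ := hab n hn.1
    have hbn : (ab n).2 ≤ n := by
      calc (ab n).2 ≤ (ab n).2 ^ 2 * (ab n).1 := by nlinarith [Nat.mul_pos h2 h1]
        _ = n := h3
    have han : (ab n).1 ≤ n := by
      calc (ab n).1 ≤ (ab n).2 ^ 2 * (ab n).1 := Nat.le_mul_of_pos_left _ (by positivity)
        _ = n := h3
    have hpr : ∀ p ∈ (ab n).1.primeFactors \ B, p.Prime := by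
      intro p hp
      exact Nat.prime_of_mem_primeFactors (Finset.mem_sdiff.1 hp).1
    have hdvd : (∏ p ∈ (ab n).1.primeFactors \ B, p) ∣ (ab n).1 := by
      conv_rhs => rw [← Nat.prod_primeFactors_of_squarefree h4]
      exact Finset.prod_dvd_prod_of_subset _ _ _ Finset.sdiff_subset
    simp only [φ, Finset.mem_product, Finset.mem_Icc, Finset.mem_powerset]
    refine ⟨⟨h2, hbn.trans hn.2⟩, Finset.inter_subset_right, ?_⟩
    rw [mem_ER]
    refine ⟨⟨Finset.prod_pos (fun p hp => (hpr p hp).pos), (Nat.le_of_dvd h1 hdvd).trans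
      (han.trans hn.2)⟩, h4.squarefree_of_dvd hdvd, ?_⟩
    intro l hl
    rw [Nat.primeFactors_prod hpr] at hl
    exact hB l (hpr l hl) (Finset.mem_sdiff.1 hl).2
  · intro m hm n hn hmn
    rw [Finset.mem_coe, Finset.mem_Icc] at hm hn
    rw [← hψφ m hm.1, ← hψφ n hn.1, hmn]

lemma sum_dvd_le (q r : ℕ) (hq : 2 ≤ q) (hr : 0 < r) (hr2 : r < 2 ^ q) :
    ∑ l ∈ r.primeFactors.filter (fun l => q < l), 1 / (l : ℝ) ≤ 1 := by
  classical
  set D := r.primeFactors.filter (fun l => q < l) with hD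
  have hcard : D.card ≤ q := by
    have h1 : 2 ^ D.card ≤ r := by
      calc 2 ^ D.card = ∏ _l ∈ D, 2 := by rw [Finset.prod_const]
        _ ≤ ∏ l ∈ D, l := Finset.prod_le_prod' (fun l hl => by
            have := (Finset.mem_filter.1 hl).2
            omega)
        _ ≤ r := Nat.le_of_dvd hr ((Finset.prod_dvd_prod_of_subset _ _ _
            (Finset.filter_subset _ _)).trans (Nat.prod_primeFactors_dvd r))
    have h2 : 2 ^ D.card < 2 ^ q := h1.trans_lt hr2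
    exact ((Nat.pow_lt_pow_iff_right (by norm_num)).1 h2).le
  have hq0 : (0 : ℝ) < q := by exact_mod_cast (by omega : 0 < q)
  calc ∑ l ∈ D, 1 / (l : ℝ) ≤ ∑ _l ∈ D, 1 / (q : ℝ) := by
        refine Finset.sum_le_sum (fun l hl => ?_)
        have := (Finset.mem_filter.1 hl).2
        have h3 : (q : ℝ) ≤ l := by exact_mod_cast this.le
        exact one_div_le_one_div_of_le hq0 h3
    _ = D.card * (1 / (q : ℝ)) := by rw [Finset.sum_const, nsmul_eq_mul]
    _ ≤ q * (1 / (q : ℝ)) := by gcongr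
    _ = 1 := by field_simp

/-- **Lower bound for the rough squarefree reciprocal sum.** -/
theorem rough_lower : ∃ c : ℝ, 0 < c ∧ ∀ q : ℕ, 3 ≤ q → ∀ z : ℕ, 1 ≤ z → ∀ r : ℕ, 0 < r →
    r < 2 ^ q → c * (Real.log z / Real.log q) ≤ ∑ e ∈ ER z q r, (1 : ℝ) / e := by
  classical
  obtain ⟨C, hC⟩ := Pool.Agent.Erdos456.Mert.mertens_inv
  have hsum : Summable (fun n : ℕ => 1 / (n : ℝ) ^ 2) :=
    Real.summable_one_div_nat_pow.2 (by norm_num)
  set K : ℝ := ∑' n : ℕ, 1 / (n : ℝ) ^ 2 with hK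
  have hK1 : 1 ≤ K := by
    have := hsum.le_tsum 1 (fun n _ => by positivity)
    simpa [hK] using this
  refine ⟨1 / (K * Real.exp (C + 1)), by positivity, fun q hq z hz r hr hr2 => ?_⟩
  set B : Finset ℕ := (Icc 1 q).filter Nat.Prime ∪ r.primeFactors.filter (fun l => q < l) with hBd
  have hB : ∀ l, l.Prime → l ∉ B → q < l ∧ ¬ l ∣ r := by
    intro l hl hlB
    rw [hBd, Finset.mem_union, not_or, Finset.mem_filter, Finset.mem_filter, Finset.mem_Icc] at hlB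
    have h1 : q < l := by
      by_contra h
      exact hlB.1 ⟨⟨hl.pos, by omega⟩, hl⟩
    exact ⟨h1, fun h => hlB.2 ⟨Nat.mem_primeFactors.2 ⟨hl, h, hr.ne'⟩, h1⟩⟩
  have h1 := decomp z q r B hB
  have h2 : Real.log z ≤ ∑ n ∈ Icc 1 z, (1 : ℝ) / n := by
    have h3 := log_add_one_le_harmonic z
    rw [harmonic_eq_sum_Icc] at h3
    push_cast at h3
    simp only [one_div]
    refine le_trans ?_ h3
    exact Real.log_le_log (by exact_mod_cast hz) (by linarith)
  have h4 : ∑ h ∈ Icc 1 z, (1 : ℝ) / (h : ℝ) ^ 2 ≤ K :=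
    hsum.sum_le_tsum _ (fun n _ => by positivity)
  have hlq : 0 < Real.log q := Real.log_pos (by exact_mod_cast (by omega : 1 < q))
  have h5 : ∏ l ∈ B, (1 + 1 / (l : ℝ)) ≤ Real.exp (C + 1) * Real.log q := by
    have h6 : ∏ l ∈ B, (1 + 1 / (l : ℝ)) ≤ Real.exp (∑ l ∈ B, 1 / (l : ℝ)) := by
      rw [Real.exp_sum]
      refine Finset.prod_le_prod (fun l _ => by positivity) (fun l _ => ?_)
      rw [add_comm]
      exact Real.add_one_le_exp _
    have h7 : ∑ l ∈ B, 1 / (l : ℝ) ≤ Real.log (Real.log q) + C + 1 := by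
      have h8 := (abs_le.1 (hC q hq)).2
      have h9 := sum_dvd_le q r (by omega) hr hr2
      have h10 : ∑ l ∈ B, 1 / (l : ℝ) ≤ ∑ l ∈ (Icc 1 q).filter Nat.Prime, 1 / (l : ℝ) +
          ∑ l ∈ r.primeFactors.filter (fun l => q < l), 1 / (l : ℝ) := by
        rw [hBd]
        have := Finset.sum_union_inter (s₁ := (Icc 1 q).filter Nat.Prime)
          (s₂ := r.primeFactors.filter (fun l => q < l)) (f := fun l : ℕ => 1 / (l : ℝ))
        rw [← this]
        have h11 : 0 ≤ ∑ l ∈ (Icc 1 q).filter Nat.Prime ∩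
          r.primeFactors.filter (fun l => q < l), 1 / (l : ℝ) :=
          Finset.sum_nonneg (fun l _ => by positivity)
        linarith
      linarith
    refine h6.trans ((Real.exp_le_exp.2 h7).trans ?_)
    rw [add_assoc, Real.exp_add, Real.exp_log hlq, mul_comm]
  have hE0 : 0 ≤ ∑ e ∈ ER z q r, (1 : ℝ) / e := Finset.sum_nonneg (fun e _ => by positivity)
  have h12 : Real.log z ≤ K * (Real.exp (C + 1) * Real.log q * ∑ e ∈ ER z q r, (1 : ℝ) / e) := by
    refine h2.trans (h1.trans ?_)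
    gcongr
  rw [div_mul_div_comm, one_mul, div_le_iff₀ (by positivity)]
  calc Real.log z ≤ _ := h12
    _ = _ := by ring

end Pool.Agent.H555R4.LW.Rough
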