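import Mathlib
import Pool.Agent.H555R4.LW.Stmts
import Pool.Agent.H555R4.LW.Rough
import Pool.Agent.Helper403.Sieve

set_option autoImplicit false

/-!
Task B1: the one-dimensional sieve.
-/

open Finset

namespace Pool.Agent.H555R4.LW.B1

open Pool.Agent.H555R4.LW.Rough Pool.Agent.Helper403

lemma nu_eq_one (A l : ℕ) (hl : 0 < l) : nu (fun l t => l ∣ A + t) l = 1 := by
  classical
  rw [nu, Finset.card_eq_one]
  refine ⟨(l - A % l) % l, ?_⟩
  have hA : A % l < l := Nat.mod_lt _ hl
  ext t
  simp only [Finset.mem_filter, Finset.mem_range, Finset.mem_singleton]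
  constructor
  · rintro ⟨h1, h2⟩
    have h3 : l ∣ A % l + t := by
      have := Nat.mod_add_div A l
      have e : A + t = (A % l + t) + l * (A / l) := by omega
      rw [e] at h2
      exact (Nat.dvd_add_left (dvd_mul_right _ _)).1 h2
    obtain ⟨c, hc⟩ := h3
    have hc2 : c < 2 := by
      by_contra h
      have : l * 2 ≤ l * c := Nat.mul_le_mul_left l (by omega)
      omega
    interval_cases c
    · have h0 : A % l = 0 := by omega
      have h0' : t = 0 := by omega
      rw [h0, h0']
      simp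
    · by_cases h0 : A % l = 0
      · omega
      · rw [Nat.mod_eq_of_lt (by omega)]
        omega
  · rintro rfl
    refine ⟨Nat.mod_lt _ hl, ?_⟩
    have e : A + (l - A % l) = l * (A / l + 1) := by
      have := Nat.mod_add_div A l
      rw [Nat.mul_add, Nat.mul_one]
      omega
    exact Nat.dvd_of_mod_eq_zero (by rw [Nat.add_mod_mod, e, Nat.mul_mod_right])

theorem taskB1 : Pool.Agent.H555R4.LW.TaskB1 := by
  classical
  obtain ⟨c, hc, hlow⟩ := rough_lower
  refine ⟨128 / (c * Real.log 2) + 1, by positivity, 128, fun q hq A T hT => ?_⟩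
  set z : ℕ := 2 ^ (q / 64) with hz
  have hz1 : 1 ≤ z := Nat.one_le_two_pow
  set bad : ℕ → ℕ → Prop := fun l t => l ∣ A + t with hbad
  set E := ER z q 1 with hE
  have hEm : ∀ e ∈ E, ∀ l ∈ e.primeFactors, l.Prime ∧ q < l ∧ l ≤ z := by
    intro e he l hl
    rw [hE, mem_ER] at he
    exact ⟨Nat.prime_of_mem_primeFactors hl, (he.2.2 l hl).1,
      (Nat.le_of_mem_primeFactors hl).trans he.1.2⟩
  have D : SieveData bad E z := by
    refine ⟨fun e he => ?_, fun e he => ?_, fun e he l hl t => ?_, fun e he l hl => ?_,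
      fun e he l hl => ?_⟩
    · rw [hE, mem_ER] at he; exact he.2.1
    · rw [hE, mem_ER] at he; exact he.1.2
    · simp only [hbad]
      rw [← Nat.add_assoc]
      exact Nat.dvd_add_self_right
    · rw [nu_eq_one A l (hEm e he l hl).1.pos]; exact one_pos
    · rw [nu_eq_one A l (hEm e he l hl).1.pos]; exact (hEm e he l hl).1.one_lt
  set S : Finset ℕ := (range T).filter
    (fun t => ∀ l : ℕ, l.Prime → q < l → l ≤ z → ¬ l ∣ A + t) with hS
  have hb := sieve_bound D T S (Finset.filter_subset _ _) (fun t ht e he l hl => by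
    have h1 := hEm e he l hl
    exact (Finset.mem_filter.1 ht).2 l h1.1 h1.2.1 h1.2.2) ⟨1, one_mem_ER hz1⟩
  have hcard : ((Ico A (A + T)).filter
      (fun m => ∀ l : ℕ, l.Prime → q < l → l ≤ z → ¬ l ∣ m)).card = S.card := by
    symm
    refine Finset.card_bij (fun t _ => A + t) ?_ ?_ ?_
    · intro t ht
      rw [hS, Finset.mem_filter, Finset.mem_range] at ht
      rw [Finset.mem_filter, Finset.mem_Ico]
      exact ⟨⟨by omega, by omega⟩, ht.2⟩
    · intro t _ t' _ h
      omega
    · intro m hm
      rw [Finset.mem_filter, Finset.mem_Ico] at hm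
      refine ⟨m - A, ?_, by omega⟩
      rw [hS, Finset.mem_filter, Finset.mem_range]
      refine ⟨by omega, ?_⟩
      rw [Nat.add_sub_cancel' hm.1.1]
      exact hm.2
  rw [hcard]
  -- the main term
  have hHw : ∀ e ∈ E, (1 : ℝ) / e ≤ Hw bad e := by
    intro e he
    have hsq : Squarefree e := D.sqf e he
    have h1 : (1 : ℝ) / e = ∏ l ∈ e.primeFactors, (1 : ℝ) / (l : ℝ) := by
      rw [Finset.prod_div_distrib, Finset.prod_const_one]
      congr 1
      conv_lhs => rw [← Nat.prod_primeFactors_of_squarefree hsq]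
      push_cast
      rfl
    rw [h1, Hw]
    refine Finset.prod_le_prod (fun l _ => by positivity) (fun l hl => ?_)
    have h2 := (hEm e he l hl).1
    rw [nu_eq_one A l h2.pos]
    have h3 : (1 : ℝ) < l := by exact_mod_cast h2.one_lt
    push_cast
    exact one_div_le_one_div_of_le (by linarith) (by linarith)
  have hsum : c * (Real.log z / Real.log q) ≤ ∑ e ∈ E, Hw bad e :=
    (hlow q (by omega) z hz1 1 one_pos (Nat.one_lt_two_pow (by omega))).trans
      (Finset.sum_le_sum hHw)
  have hq1 : (1 : ℝ) < q := by exact_mod_cast (by omega : 1 < q)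
  have hlq : 0 < Real.log q := Real.log_pos hq1
  have hlz : Real.log 2 * (q / 128) ≤ Real.log z := by
    rw [hz]
    push_cast
    rw [Real.log_pow, mul_comm]
    refine mul_le_mul_of_nonneg_right ?_ (Real.log_nonneg (by norm_num))
    have h1 : q ≤ 128 * (q / 64) := by omega
    have h2 : (q : ℝ) ≤ 128 * ((q / 64 : ℕ) : ℝ) := by exact_mod_cast h1
    linarith
  have hl2 : 0 < Real.log 2 := Real.log_pos (by norm_num)
  have hG : c * (Real.log 2 * (q / 128) / Real.log q) ≤ ∑ e ∈ E, Hw bad e := by
    refine le_trans ?_ hsum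
    gcongr
  have hGpos : 0 < c * (Real.log 2 * (q / 128) / Real.log q) := by positivity
  have hmain : (T : ℝ) / (∑ e ∈ E, Hw bad e) ≤ 128 / (c * Real.log 2) * T * (Real.log q / q) := by
    calc (T : ℝ) / (∑ e ∈ E, Hw bad e) ≤ T / (c * (Real.log 2 * (q / 128) / Real.log q)) := by
          gcongr
      _ = 128 / (c * Real.log 2) * T * (Real.log q / q) := by
          have : (q : ℝ) ≠ 0 := by positivity
          field_simp
  -- the error term
  have herr : 2 * (z : ℝ) ^ 4 ≤ T * (Real.log q / q) := by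
    have h1 : 2 * z ^ 4 * q ≤ T := by
      refine le_trans ?_ hT
      set m := q / 64 with hm
      have hm2 : 2 ≤ m := by omega
      have hq4 : 16 * m ≤ q / 4 := by omega
      have hqm : q ≤ 2 ^ (m + 7) := by
        have : m < 2 ^ m := Nat.lt_two_pow_self
        rw [pow_add]
        omega
      calc 2 * z ^ 4 * q ≤ 2 * (2 ^ m) ^ 4 * 2 ^ (m + 7) := Nat.mul_le_mul_left _ hqm
        _ = 2 ^ (1 + m * 4 + (m + 7)) := by rw [← pow_mul, ← pow_succ', ← pow_add]; ring_nf
        _ ≤ 2 ^ (q / 4) := Nat.pow_le_pow_right (by norm_num) (by omega)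
    have h2 : 2 * (z : ℝ) ^ 4 * q ≤ T := by exact_mod_cast h1
    have h3 : 1 ≤ Real.log q := by
      have h4 : Real.exp 1 ≤ q := by
        have := Real.exp_one_lt_d9
        have h5 : (128 : ℝ) ≤ q := by exact_mod_cast hq
        linarith
      rw [← Real.log_exp 1]
      exact Real.log_le_log (Real.exp_pos 1) h4
    have hT0 : (0 : ℝ) ≤ T := by positivity
    rw [← mul_div_assoc, le_div_iff₀ (by linarith)]
    calc 2 * (z : ℝ) ^ 4 * q ≤ T := h2
      _ ≤ T * Real.log q := le_mul_of_one_le_right hT0 h3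
  calc (S.card : ℝ) ≤ _ := hb
    _ ≤ 128 / (c * Real.log 2) * T * (Real.log q / q) + T * (Real.log q / q) := add_le_add hmain herr
    _ = (128 / (c * Real.log 2) + 1) * T * (Real.log q / q) := by ring

end Pool.Agent.H555R4.LW.B1
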