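import Pool.Agent.H555R4.LW.Stmts
import Pool.Agent.Helper799.PNT

/-!
Task Ch of project H555-LW: Chebyshev bounds for dyadic intervals.
-/

set_option autoImplicit false

open Finset

namespace Pool.Agent.H555R4.LW

namespace Ch

theorem theta_sub {a b : ℕ} (h : a ≤ b) : Chebyshev.theta b - Chebyshev.theta a =
    ∑ p ∈ (Ioc a b).filter Nat.Prime, Real.log p := by
  unfold Chebyshev.theta
  rw [Nat.floor_natCast, Nat.floor_natCast, ← Finset.Ioc_union_Ioc_eq_Ioc (Nat.zero_le _) h,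
    Finset.filter_union, Finset.sum_union]
  · ring
  · apply Finset.disjoint_filter_filter
    rw [Finset.disjoint_left]
    intro a ha hb
    rw [Finset.mem_Ioc] at ha hb
    omega

end Ch

theorem taskCh : TaskCh := by
  have hl2 : 0 < Real.log 2 := Real.log_pos (by norm_num)
  refine ⟨1 / (8 * Real.log 2), 4, by positivity, by norm_num, ?_⟩
  have h1 := Pool.Agent.Helper799.PNT.theta_div_tendsto
  have h2 := (Metric.tendsto_atTop.1 h1) (1 / 4) (by norm_num)
  obtain ⟨X, hX⟩ := h2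
  obtain ⟨i₁, hi₁⟩ := pow_unbounded_of_one_lt X (by norm_num : (1 : ℝ) < 2)
  refine ⟨max i₁ 1, fun i hi => ?_⟩
  have hi1 : i₁ ≤ i := (le_max_left _ _).trans hi
  have hi2 : 1 ≤ i := (le_max_right _ _).trans hi
  have hiR : (1 : ℝ) ≤ i := by exact_mod_cast hi2
  have hx0 : (0 : ℝ) < 2 ^ i := by positivity
  have hXi : X ≤ 2 ^ i := hi₁.le.trans (pow_le_pow_right₀ (by norm_num) hi1)
  have hXi' : X ≤ 2 ^ (i + 1) := hXi.trans (pow_le_pow_right₀ (by norm_num) (by omega))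
  have ha := hX (2 ^ i) hXi
  have hb := hX (2 ^ (i + 1)) hXi'
  rw [Real.dist_eq, abs_lt] at ha hb
  have ha' : Chebyshev.theta (2 ^ i) ≤ 5 / 4 * 2 ^ i := by
    have : Chebyshev.theta (2 ^ i) / 2 ^ i ≤ 5 / 4 := by linarith [ha.2]
    rwa [div_le_iff₀ hx0] at this
  have hb' : 3 / 4 * 2 ^ (i + 1) ≤ Chebyshev.theta (2 ^ (i + 1)) := by
    have : 3 / 4 ≤ Chebyshev.theta (2 ^ (i + 1)) / 2 ^ (i + 1) := by linarith [hb.1]
    rwa [le_div_iff₀ (by positivity)] at this
  have hs := Ch.theta_sub (a := 2 ^ i) (b := 2 ^ (i + 1)) (Nat.pow_le_pow_right (by norm_num) (by omega))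
  have hc : Chebyshev.theta (2 ^ (i + 1)) ≤ Real.log 4 * 2 ^ (i + 1) :=
    Chebyshev.theta_le_log4_mul_x (by positivity)
  have hl4 : Real.log 4 = 2 * Real.log 2 := by
    rw [show (4 : ℝ) = 2 ^ 2 by norm_num, Real.log_pow]; norm_num
  have hnn : 0 ≤ Chebyshev.theta (2 ^ i) := Chebyshev.theta_nonneg _
  push_cast at hs
  have hup : ∑ p ∈ (Ioc (2 ^ i) (2 ^ (i + 1))).filter Nat.Prime, Real.log p ≤
      ((i : ℝ) + 1) * Real.log 2 * (((Ioc (2 ^ i) (2 ^ (i + 1))).filter Nat.Prime).card : ℝ) := by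
    have : ∀ p ∈ (Ioc (2 ^ i) (2 ^ (i + 1))).filter Nat.Prime,
        Real.log p ≤ ((i : ℝ) + 1) * Real.log 2 := by
      intro p hp
      rw [mem_filter, mem_Ioc] at hp
      have h3 : ((i : ℝ) + 1) * Real.log 2 = Real.log (2 ^ (i + 1)) := by
        rw [Real.log_pow]; push_cast; ring
      rw [h3]
      refine Real.log_le_log (by exact_mod_cast hp.2.pos) ?_
      exact_mod_cast hp.1.2
    have h4 := sum_le_card_nsmul _ _ _ this
    rw [nsmul_eq_mul] at h4
    linarith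
  have hlo : (i : ℝ) * Real.log 2 * (((Ioc (2 ^ i) (2 ^ (i + 1))).filter Nat.Prime).card : ℝ) ≤
      ∑ p ∈ (Ioc (2 ^ i) (2 ^ (i + 1))).filter Nat.Prime, Real.log p := by
    have : ∀ p ∈ (Ioc (2 ^ i) (2 ^ (i + 1))).filter Nat.Prime,
        (i : ℝ) * Real.log 2 ≤ Real.log p := by
      intro p hp
      rw [mem_filter, mem_Ioc] at hp
      have h3 : (i : ℝ) * Real.log 2 = Real.log (2 ^ i) := by
        rw [Real.log_pow]
      rw [h3]
      refine Real.log_le_log (by positivity) ?_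
      exact_mod_cast hp.1.1.le
    have h4 := card_nsmul_le_sum _ _ _ this
    rw [nsmul_eq_mul] at h4
    linarith
  rw [← hs] at hup hlo
  have hp2 : (2 : ℝ) ^ (i + 1) = 2 * 2 ^ i := by ring
  set c : ℝ := (((Ioc (2 ^ i) (2 ^ (i + 1))).filter Nat.Prime).card : ℝ) with hcdef
  have hc0 : 0 ≤ c := by rw [hcdef]; exact Nat.cast_nonneg _
  constructor
  · have h5 : 2 ^ i / 4 ≤ ((i : ℝ) + 1) * Real.log 2 * c := by
      rw [hp2] at hb'
      rw [hp2] at hup
      linarith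
    have h6 : ((i : ℝ) + 1) * Real.log 2 * c ≤ 2 * i * Real.log 2 * c := by
      have : ((i : ℝ) + 1) ≤ 2 * i := by linarith
      gcongr
    rw [div_le_iff₀ (by positivity), div_mul_eq_mul_div, div_le_iff₀ (by positivity)]
    nlinarith
  · rw [le_div_iff₀ (by positivity)]
    have h5 : (i : ℝ) * Real.log 2 * c ≤ Real.log 4 * (2 * 2 ^ i) := by
      rw [hp2] at hc hlo
      linarith
    rw [hl4] at h5
    have h6 : Real.log 2 * (c * i) ≤ Real.log 2 * (4 * 2 ^ i) := by linarith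
    exact le_of_mul_le_mul_left h6 hl2

end Pool.Agent.H555R4.LW
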