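import Pool.Agent.H555R4.LW.Stmts

/-! Task `TaskE1` of the project H555-LW: moments of the block counts.  (helper676) -/

set_option autoImplicit false

open Finset

namespace Pool.Agent.H555R4.LW.E1

open Pool.Agent.H555R4.LW

theorem count_div (a b j : ℕ) (φ : ℕ → Prop) [DecidablePred φ] :
    ((Ico (a * 2 ^ j) (b * 2 ^ j)).filter (fun n => φ (n / 2 ^ j))).card =
      2 ^ j * ((Ico a b).filter φ).card := by
  have hpos : 0 < 2 ^ j := by positivity
  rw [Finset.card_eq_sum_card_fiberwise (f := fun n => n / 2 ^ j) (t := (Ico a b).filter φ)]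
  · rw [Finset.sum_const_nat (m := 2 ^ j), mul_comm]
    intro m hm
    have h : filter (fun n => n / 2 ^ j = m)
        (filter (fun n => φ (n / 2 ^ j)) (Ico (a * 2 ^ j) (b * 2 ^ j))) =
        Ico (m * 2 ^ j) ((m + 1) * 2 ^ j) := by
      ext n
      simp only [mem_filter, mem_Ico] at hm ⊢
      constructor
      · rintro ⟨-, h3⟩
        have h4 := (Nat.div_eq_iff hpos).mp h3
        have h5 : (m + 1) * 2 ^ j = m * 2 ^ j + 2 ^ j := by ring
        constructor
        · exact h4.1
        · have := h4.2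
          omega
      · rintro ⟨h1, h2⟩
        have h3 : n / 2 ^ j = m := Nat.div_eq_of_lt_le h1 h2
        refine ⟨⟨⟨?_, ?_⟩, ?_⟩, h3⟩
        · exact (Nat.mul_le_mul_right _ hm.1.1).trans h1
        · exact h2.trans_le (Nat.mul_le_mul_right _ hm.1.2)
        · rw [h3]
          exact hm.2
    rw [h, Nat.card_Ico]
    have h5 : (m + 1) * 2 ^ j = m * 2 ^ j + 2 ^ j := by ring
    omega
  · intro n hn
    simp only [coe_filter, mem_Ico, Set.mem_ofPred_eq] at hn ⊢
    refine ⟨⟨?_, ?_⟩, hn.2⟩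
    · exact (Nat.le_div_iff_mul_le hpos).mpr hn.1.1
    · exact (Nat.div_lt_iff_lt_mul hpos).mpr hn.1.2

theorem cell_single (c P L p : ℕ) (hLp : L ≤ p) (hpP : p ≤ P) (φ : ℕ → Prop) [DecidablePred φ] :
    ((Ico (c * 2 ^ (P - L)) ((c + 1) * 2 ^ (P - L))).filter (fun n => φ (n / 2 ^ (P - p)))).card =
      2 ^ (P - p) * ((Ico (c * 2 ^ (p - L)) ((c + 1) * 2 ^ (p - L))).filter φ).card := by
  have h : 2 ^ (P - L) = 2 ^ (p - L) * 2 ^ (P - p) := by
    rw [← pow_add]
    congr 1
    omega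
  rw [h, ← mul_assoc, ← mul_assoc, count_div]

/-- the indicator of the success of `p` -/
noncomputable def X (P p n : ℕ) : ℝ := if (rp p (n / 2 ^ (P - p))).Prime then 1 else 0

theorem Yb_eq (i n : ℕ) :
    (Yb i n : ℝ) = ∑ p ∈ (Ioc (2 ^ i) (2 ^ (i + 1))).filter Nat.Prime, X (2 ^ (i + 1)) p n := by
  unfold Yb X
  rw [Finset.sum_boole, Finset.filter_filter]

theorem sumX (S : Finset ℕ) (P p : ℕ) :
    ∑ n ∈ S, X P p n = ((S.filter (fun n => (rp p (n / 2 ^ (P - p))).Prime)).card : ℝ) := by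
  unfold X
  rw [Finset.sum_boole]

theorem sumXX (S : Finset ℕ) (P p q : ℕ) :
    ∑ n ∈ S, X P p n * X P q n = ((S.filter (fun n => (rp p (n / 2 ^ (P - p))).Prime ∧
      (rp q (n / 2 ^ (P - q))).Prime)).card : ℝ) := by
  have h : ∀ n, X P p n * X P q n = if ((rp p (n / 2 ^ (P - p))).Prime ∧
      (rp q (n / 2 ^ (P - q))).Prime) then 1 else 0 := by
    intro n
    unfold X
    by_cases h1 : (rp p (n / 2 ^ (P - p))).Prime <;>
      by_cases h2 : (rp q (n / 2 ^ (P - q))).Prime <;> simp [h1, h2]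
  simp only [h]
  rw [Finset.sum_boole]

theorem two_pow_split {P L p : ℕ} (hLp : L ≤ p) (hpP : p ≤ P) :
    (2 : ℝ) ^ (P - p) * 2 ^ (p - L) = 2 ^ (P - L) := by
  rw [← pow_add]
  congr 1
  omega

/-- the sum of `2 ^ (-|p - q|)` over `q` in a finite set is at most four -/
theorem sum_dist (S : Finset ℕ) (p : ℕ) :
    ∑ q ∈ S, (1 / 2 : ℝ) ^ ((p - q) + (q - p)) ≤ 4 := by
  have hs : Summable (fun j : ℕ => (1 / 2 : ℝ) ^ j) := summable_geometric_two
  have ht : ∑' j : ℕ, (1 / 2 : ℝ) ^ j = 2 := tsum_geometric_two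
  have h1 : ∑ q ∈ S.filter (fun q => q ≤ p), (1 / 2 : ℝ) ^ ((p - q) + (q - p)) ≤ 2 := by
    have h2 : ∑ q ∈ S.filter (fun q => q ≤ p), (1 / 2 : ℝ) ^ ((p - q) + (q - p)) =
        ∑ j ∈ (S.filter (fun q => q ≤ p)).image (fun q => p - q), (1 / 2 : ℝ) ^ j := by
      rw [Finset.sum_image]
      · apply Finset.sum_congr rfl
        intro q hq
        rw [mem_filter] at hq
        congr 1
        omega
      · intro q hq q' hq' h
        simp only [coe_filter, Set.mem_ofPred_eq] at hq hq'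
        have h' : p - q = p - q' := h
        omega
    rw [h2]
    exact (hs.sum_le_tsum _ (fun _ _ => by positivity)).trans ht.le
  have h3 : ∑ q ∈ S.filter (fun q => ¬ q ≤ p), (1 / 2 : ℝ) ^ ((p - q) + (q - p)) ≤ 2 := by
    have h2 : ∑ q ∈ S.filter (fun q => ¬ q ≤ p), (1 / 2 : ℝ) ^ ((p - q) + (q - p)) =
        ∑ j ∈ (S.filter (fun q => ¬ q ≤ p)).image (fun q => q - p), (1 / 2 : ℝ) ^ j := by
      rw [Finset.sum_image]
      · apply Finset.sum_congr rfl
        intro q hq
        rw [mem_filter] at hq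
        congr 1
        omega
      · intro q hq q' hq' h
        simp only [coe_filter, Set.mem_ofPred_eq] at hq hq'
        have h' : q - p = q' - p := h
        omega
    rw [h2]
    exact (hs.sum_le_tsum _ (fun _ _ => by positivity)).trans ht.le
  rw [← Finset.sum_filter_add_sum_filter_not S (fun q => q ≤ p)]
  linarith

theorem taskE1 : TaskE1 := by
  rintro ⟨a, b, ha, hb, iC, hCh⟩ ⟨C1, hC1, p1, hU1⟩ ⟨C2, hC2, p2, hU2⟩ ⟨η, hη, K', hK', hL1⟩
  have hlog2 : 0 < Real.log 2 := Real.log_pos (by norm_num)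
  refine ⟨K' + 4, η * a * Real.log 2 / 2, (C1 + C2) * (4 * b ^ 2 + 8 * b), by positivity,
    by positivity, fun s => ?_⟩
  obtain ⟨p3, hL⟩ := hL1 s
  refine ⟨K' + 4 + iC + p1 + p2 + p3 + 1, by omega, fun i hi c hc1 hc2 => ?_⟩
  have hi1 : 1 ≤ i := by omega
  have hiR : (0 : ℝ) < i := by exact_mod_cast hi1
  obtain ⟨hChl, hChu⟩ := hCh i (by omega)
  have hii : i < 2 ^ i := Nat.lt_two_pow_self
  have hPd : 2 ^ (i + 1) = 2 ^ i + 2 ^ i := by ring
  have hK2 : 2 ^ (K' + 4) * 2 ^ (i - (K' + 4)) = 2 ^ i := by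
    rw [← pow_add]
    congr 1
    omega
  have hK3 : K' < 2 ^ K' := Nat.lt_two_pow_self
  have hK4 : 2 ^ (K' + 4) = 16 * 2 ^ K' := by ring
  have h10 : 10 * 2 ^ (i - (K' + 4)) ≤ 2 ^ i := by
    rw [← hK2]
    apply Nat.mul_le_mul_right
    omega
  have hKL : K' * 2 ^ (i - (K' + 4)) ≤ 2 ^ i := by
    rw [← hK2]
    apply Nat.mul_le_mul_right
    omega
  simp only [Yb_eq]
  set P := 2 ^ (i + 1) with hP
  set L := 2 ^ (i - (K' + 4)) with hLdef
  set PS := (Ioc (2 ^ i) P).filter Nat.Prime with hPS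
  set cell := Ico (c * 2 ^ (P - L)) ((c + 1) * 2 ^ (P - L)) with hcell
  have hmem : ∀ p ∈ PS, 2 ^ i < p ∧ p ≤ P ∧ p.Prime := by
    intro p hp
    rw [hPS, mem_filter, mem_Ioc] at hp
    exact ⟨hp.1.1, hp.1.2, hp.2⟩
  have hLi : L ≤ 2 ^ i := by omega
  -- bounds for `log p / p`
  have hlow : ∀ p ∈ PS, (i : ℝ) * Real.log 2 / 2 ^ (i + 1) ≤ Real.log p / p := by
    intro p hp
    obtain ⟨h1, h2, -⟩ := hmem p hp
    have hp0 : (0 : ℝ) < p := by
      have : 0 < p := by omega
      exact_mod_cast this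
    have h3 : (i : ℝ) * Real.log 2 ≤ Real.log p := by
      rw [← Real.log_pow]
      apply Real.log_le_log (by positivity)
      exact_mod_cast h1.le
    have h4 : (p : ℝ) ≤ 2 ^ (i + 1) := by exact_mod_cast h2
    have h5 : 0 ≤ (i : ℝ) * Real.log 2 := by positivity
    exact div_le_div₀ (h5.trans h3) h3 hp0 h4
  have hup : ∀ p ∈ PS, Real.log p / p ≤ 2 * (i : ℝ) / 2 ^ i := by
    intro p hp
    obtain ⟨h1, h2, -⟩ := hmem p hp
    have hp0 : (0 : ℝ) < p := by
      have : 0 < p := by omega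
      exact_mod_cast this
    have h3 : Real.log p ≤ 2 * (i : ℝ) := by
      have h4 : (p : ℝ) ≤ 2 ^ (i + 1) := by exact_mod_cast h2
      have h5 : Real.log p ≤ ((i + 1 : ℕ) : ℝ) * Real.log 2 := by
        rw [← Real.log_pow]
        exact Real.log_le_log hp0 h4
      have h6 : Real.log 2 ≤ 1 := by
        have := Real.log_two_lt_d9
        linarith
      have h7 : ((i + 1 : ℕ) : ℝ) * Real.log 2 ≤ ((i + 1 : ℕ) : ℝ) * 1 :=
        mul_le_mul_of_nonneg_left h6 (by positivity)
      have h8 : ((i + 1 : ℕ) : ℝ) ≤ 2 * (i : ℝ) := by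
        push_cast
        have : (1 : ℝ) ≤ i := by exact_mod_cast hi1
        linarith
      linarith
    have h4 : (2 : ℝ) ^ i ≤ p := by exact_mod_cast h1.le
    exact div_le_div₀ (by positivity) h3 (by positivity) h4
  have hlognn : ∀ p ∈ PS, 0 ≤ Real.log p / p := fun p hp =>
    le_trans (by positivity) (hlow p hp)
  constructor
  · -- first moment
    rw [Finset.sum_comm]
    have h1 : ∀ p ∈ PS, η * 2 ^ (P - L) * ((i : ℝ) * Real.log 2 / 2 ^ (i + 1)) ≤
        ∑ n ∈ cell, X P p n := by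
      intro p hp
      obtain ⟨h1, h2, -⟩ := hmem p hp
      rw [sumX, hcell, cell_single c P L p (by omega) h2 (fun m => (rp p m).Prime)]
      push_cast
      have h3 := hL p (by omega) L c (hKL.trans h1.le) hc1 hc2
      calc η * 2 ^ (P - L) * ((i : ℝ) * Real.log 2 / 2 ^ (i + 1)) ≤
            η * 2 ^ (P - L) * (Real.log p / p) :=
            mul_le_mul_of_nonneg_left (hlow p hp) (by positivity)
        _ = 2 ^ (P - p) * (η * 2 ^ (p - L) * (Real.log p / p)) := by
            rw [← two_pow_split (show L ≤ p by omega) h2]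
            ring
        _ ≤ _ := mul_le_mul_of_nonneg_left h3 (by positivity)
    calc η * a * Real.log 2 / 2 * 2 ^ (P - L) =
          (a * 2 ^ i / i) * (η * 2 ^ (P - L) * ((i : ℝ) * Real.log 2 / 2 ^ (i + 1))) := by
          rw [pow_succ (2 : ℝ) i]
          field_simp
      _ ≤ (PS.card : ℝ) * (η * 2 ^ (P - L) * ((i : ℝ) * Real.log 2 / 2 ^ (i + 1))) :=
          mul_le_mul_of_nonneg_right hChl (by positivity)
      _ = ∑ p ∈ PS, (η * 2 ^ (P - L) * ((i : ℝ) * Real.log 2 / 2 ^ (i + 1))) := by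
          rw [Finset.sum_const, nsmul_eq_mul]
      _ ≤ _ := Finset.sum_le_sum h1
  · -- second moment
    set Mx : ℝ := 2 * (i : ℝ) / 2 ^ i with hMx
    have hMx0 : 0 ≤ Mx := by positivity
    have hcard : (PS.card : ℝ) * Mx ≤ 2 * b := by
      calc (PS.card : ℝ) * Mx ≤ (b * 2 ^ i / i) * Mx := mul_le_mul_of_nonneg_right hChu hMx0
        _ = 2 * b := by
          rw [hMx]
          field_simp
    -- the pairs with `p < q`
    have hlt : ∀ p ∈ PS, ∀ q ∈ PS, p < q → ∑ n ∈ cell, X P q n * X P p n ≤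
        (C1 + C2) * 2 ^ (P - L) * (Mx ^ 2 + Mx * (1 / 2) ^ ((p - q) + (q - p))) := by
      intro p hp q hq hpq
      obtain ⟨h1, h2, -⟩ := hmem p hp
      obtain ⟨h3, h4, -⟩ := hmem q hq
      obtain ⟨k, rfl⟩ : ∃ k, q = p + k := ⟨q - p, by omega⟩
      have hk1 : 1 ≤ k := by omega
      have hk2 : k ≤ p := by omega
      have e1 : ∀ n, n / 2 ^ (P - p) = n / 2 ^ (P - (p + k)) / 2 ^ k := by
        intro n
        rw [Nat.div_div_eq_div_mul, ← pow_add]
        congr 2
        omega
      rw [sumXX]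
      simp only [e1]
      rw [hcell, cell_single c P L (p + k) (by omega) h4
        (fun m => (rp (p + k) m).Prime ∧ (rp p (m / 2 ^ k)).Prime)]
      push_cast
      have h5 := hU2 p (by omega) k L c hk1 hk2 (h10.trans h1.le) hc1
      have h6 := hup p hp
      have h7 := hlognn p hp
      have e2 : (p - (p + k)) + ((p + k) - p) = k := by omega
      calc (2 : ℝ) ^ (P - (p + k)) * _ ≤ 2 ^ (P - (p + k)) * (C2 * 2 ^ (p + k - L) *
              ((Real.log p / p) ^ 2 + Real.log p / p / 2 ^ k)) :=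
            mul_le_mul_of_nonneg_left h5 (by positivity)
        _ = C2 * 2 ^ (P - L) * ((Real.log p / p) ^ 2 + Real.log p / p / 2 ^ k) := by
            rw [← two_pow_split (show L ≤ p + k by omega) h4]
            ring
        _ ≤ C2 * 2 ^ (P - L) * (Mx ^ 2 + Mx / 2 ^ k) := by
            apply mul_le_mul_of_nonneg_left _ (by positivity)
            apply add_le_add
            · exact pow_le_pow_left₀ h7 h6 2
            · exact div_le_div_of_nonneg_right h6 (by positivity)
        _ = C2 * 2 ^ (P - L) * (Mx ^ 2 + Mx * (1 / 2) ^ ((p - (p + k)) + ((p + k) - p))) := by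
            rw [e2, one_div, inv_pow, div_eq_mul_inv]
        _ ≤ _ := by
            apply mul_le_mul_of_nonneg_right _ (by positivity)
            apply mul_le_mul_of_nonneg_right _ (by positivity)
            linarith
    have hpair : ∀ p ∈ PS, ∀ q ∈ PS, ∑ n ∈ cell, X P p n * X P q n ≤
        (C1 + C2) * 2 ^ (P - L) * (Mx ^ 2 + Mx * (1 / 2) ^ ((p - q) + (q - p))) := by
      intro p hp q hq
      rcases lt_trichotomy p q with h | h | h
      · have := hlt p hp q hq h
        simp only [mul_comm (X P q _)] at this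
        exact this
      · subst h
        obtain ⟨h1, h2, -⟩ := hmem p hp
        have e0 : ∀ n, X P p n * X P p n = X P p n := by
          intro n
          unfold X
          split_ifs <;> simp
        simp only [e0]
        rw [sumX, hcell, cell_single c P L p (by omega) h2 (fun m => (rp p m).Prime)]
        push_cast
        have h5 := hU1 p (by omega) L c (h10.trans h1.le) hc1
        calc (2 : ℝ) ^ (P - p) * _ ≤ 2 ^ (P - p) * (C1 * 2 ^ (p - L) * (Real.log p / p)) :=
              mul_le_mul_of_nonneg_left h5 (by positivity)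
          _ = C1 * 2 ^ (P - L) * (Real.log p / p) := by
              rw [← two_pow_split (show L ≤ p by omega) h2]
              ring
          _ ≤ C1 * 2 ^ (P - L) * Mx :=
              mul_le_mul_of_nonneg_left (hup p hp) (by positivity)
          _ ≤ (C1 + C2) * 2 ^ (P - L) * (Mx ^ 2 + Mx) := by
              have e3 : Mx ≤ Mx ^ 2 + Mx := by nlinarith [sq_nonneg Mx]
              apply mul_le_mul _ e3 hMx0 (by positivity)
              apply mul_le_mul_of_nonneg_right _ (by positivity)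
              linarith
          _ = _ := by
              rw [Nat.sub_self, pow_zero, mul_one]
      · have := hlt q hq p hp h
        rwa [add_comm (q - p) (p - q)] at this
    have hsq : ∀ n, (∑ p ∈ PS, X P p n) ^ 2 = ∑ p ∈ PS, ∑ q ∈ PS, X P p n * X P q n := by
      intro n
      rw [sq, Finset.sum_mul_sum]
    simp only [hsq]
    rw [Finset.sum_comm]
    calc ∑ p ∈ PS, ∑ n ∈ cell, ∑ q ∈ PS, X P p n * X P q n
        = ∑ p ∈ PS, ∑ q ∈ PS, ∑ n ∈ cell, X P p n * X P q n := by
          apply Finset.sum_congr rfl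
          intro p _
          rw [Finset.sum_comm]
      _ ≤ ∑ p ∈ PS, ∑ q ∈ PS, (C1 + C2) * 2 ^ (P - L) *
            (Mx ^ 2 + Mx * (1 / 2) ^ ((p - q) + (q - p))) :=
          Finset.sum_le_sum fun p hp => Finset.sum_le_sum fun q hq => hpair p hp q hq
      _ ≤ ∑ p ∈ PS, (C1 + C2) * 2 ^ (P - L) * ((PS.card : ℝ) * Mx ^ 2 + Mx * 4) := by
          apply Finset.sum_le_sum
          intro p _
          rw [← Finset.mul_sum]
          apply mul_le_mul_of_nonneg_left _ (by positivity)
          rw [Finset.sum_add_distrib, Finset.sum_const, nsmul_eq_mul, ← Finset.mul_sum]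
          have := mul_le_mul_of_nonneg_left (sum_dist PS p) hMx0
          linarith
      _ = (C1 + C2) * 2 ^ (P - L) * (((PS.card : ℝ) * Mx) ^ 2 + ((PS.card : ℝ) * Mx) * 4) := by
          rw [Finset.sum_const, nsmul_eq_mul]
          ring
      _ ≤ (C1 + C2) * 2 ^ (P - L) * ((2 * b) ^ 2 + (2 * b) * 4) := by
          apply mul_le_mul_of_nonneg_left _ (by positivity)
          have h0 : 0 ≤ (PS.card : ℝ) * Mx := by positivity
          have h1 := pow_le_pow_left₀ h0 hcard 2
          linarith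
      _ = (C1 + C2) * (4 * b ^ 2 + 8 * b) * 2 ^ (P - L) := by ring

end Pool.Agent.H555R4.LW.E1
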