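import Pool.Agent.H555R4.LW.Stmts

set_option autoImplicit false

open Finset

namespace Pool.Agent.H555R4.LW.L1

open Pool.Agent.H555R4.LW

lemma rp_mul {p v Q : ℕ} (hv : 1 ≤ v) (hvp : v ≤ p) (hQ : Q.Prime) (hQp : p < Q) :
    rp p (v * Q) = Q := by
  unfold rp
  have h1 := Nat.perm_primeFactorsList_mul (a := v) (b := Q) (by omega) hQ.ne_zero
  have h2 := (h1.filter (fun r => decide (p < r))).prod_eq
  rw [h2, List.filter_append, Nat.primeFactorsList_prime hQ]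
  have h3 : List.filter (fun r => decide (p < r)) v.primeFactorsList = [] := by
    rw [List.filter_eq_nil_iff]
    intro r hr
    have := Nat.le_of_mem_primeFactorsList hr
    simp
    omega
  rw [h3]
  simp [hQp]

/-- growth -/
lemma eventually_big (r : ℝ) (hr : 1 < r) (B : ℝ) : ∃ p₀ : ℕ, ∀ p : ℕ, p₀ ≤ p →
    B * (p : ℝ) ^ 2 ≤ r ^ p := by
  have h := tendsto_pow_const_div_const_pow_of_one_lt 2 hr
  have h2 : ∀ᶠ n : ℕ in Filter.atTop, (n : ℝ) ^ 2 / r ^ n < 1 / (|B| + 1) :=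
    h.eventually_lt_const (by positivity)
  obtain ⟨N, hN⟩ := Filter.eventually_atTop.mp h2
  refine ⟨N, fun p hp => ?_⟩
  have h3 := hN p hp
  have hrp : 0 < r ^ p := by positivity
  rw [div_lt_div_iff₀ hrp (by positivity)] at h3
  have h4 : B * (p : ℝ) ^ 2 ≤ (|B| + 1) * (p : ℝ) ^ 2 :=
    mul_le_mul_of_nonneg_right ((le_abs_self B).trans (by linarith)) (by positivity)
  nlinarith

lemma count {p c M X₀ : ℕ} (_hp : 1 ≤ p) (hc : 1 ≤ c) (hM : p * (X₀ + p + 4) ≤ M) :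
    ∑ v ∈ Icc 1 p, (((Ioc (c * M / v) (c * M / v + (M / v - 1))).filter Nat.Prime).card) ≤
      ((Ico (c * M) ((c + 1) * M)).filter (fun n => (rp p n).Prime)).card := by
  have hX : ∀ v : ℕ, 1 ≤ v → v ≤ p → X₀ + p + 4 ≤ M / v := by
    intro v hv hvp
    rw [Nat.le_div_iff_mul_le (by omega)]
    calc (X₀ + p + 4) * v ≤ (X₀ + p + 4) * p := Nat.mul_le_mul_left _ hvp
      _ = p * (X₀ + p + 4) := by ring
      _ ≤ M := hM
  have hX2 : ∀ v : ℕ, 1 ≤ v → v ≤ p → X₀ + p + 4 ≤ c * M / v := by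
    intro v hv hvp
    refine (hX v hv hvp).trans (Nat.div_le_div_right ?_)
    nlinarith
  rw [← Finset.card_sigma]
  apply Finset.card_le_card_of_injOn (fun x => x.1 * x.2)
  · rintro ⟨v, Q⟩ hx
    simp only [coe_sigma, Set.mem_sigma_iff, mem_coe, mem_Icc, mem_filter, mem_Ioc] at hx
    obtain ⟨⟨hv, hvp⟩, ⟨h1, h2⟩, hQ⟩ := hx
    have hpQ : p < Q := by have := hX2 v hv hvp; omega
    simp only [mem_coe, mem_filter, mem_Ico]
    refine ⟨⟨?_, ?_⟩, ?_⟩
    · have h3 : c * M < v * (c * M / v + 1) := Nat.lt_mul_div_succ _ (by omega)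
      calc c * M ≤ v * (c * M / v + 1) := h3.le
        _ ≤ v * Q := Nat.mul_le_mul_left _ h1
    · have h4 : v * (c * M / v) ≤ c * M := Nat.mul_div_le _ _
      have h5 : v * (M / v) ≤ M := Nat.mul_div_le _ _
      have h6 := hX v hv hvp
      have h7 : v * Q ≤ v * (c * M / v + (M / v - 1)) := Nat.mul_le_mul_left _ h2
      have h8 : v * (c * M / v + (M / v - 1)) + v = v * (c * M / v) + v * (M / v) := by
        have : M / v - 1 + 1 = M / v := by omega
        calc v * (c * M / v + (M / v - 1)) + v = v * (c * M / v) + v * (M / v - 1 + 1) := by ring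
          _ = _ := by rw [this]
      have h9 : (c + 1) * M = c * M + M := by ring
      omega
    · rw [rp_mul hv hvp hQ hpQ]
      exact hQ
  · rintro ⟨v, Q⟩ hx ⟨v', Q'⟩ hx' heq
    simp only [coe_sigma, Set.mem_sigma_iff, mem_coe, mem_Icc, mem_filter, mem_Ioc] at hx hx'
    obtain ⟨⟨hv, hvp⟩, ⟨h1, h2⟩, hQ⟩ := hx
    obtain ⟨⟨hv', hvp'⟩, ⟨h1', h2'⟩, hQ'⟩ := hx'
    have hpQ : p < Q := by have := hX2 v hv hvp; omega
    have hpQ' : p < Q' := by have := hX2 v' hv' hvp'; omega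
    simp only at heq
    have e1 : Q = Q' := by
      rw [← rp_mul hv hvp hQ hpQ, ← rp_mul hv' hvp' hQ' hpQ', heq]
    subst e1
    have e2 : v = v' := Nat.eq_of_mul_eq_mul_right hQ.pos heq
    subst e2
    rfl

theorem taskL1 : TaskL1 := by
  rintro ⟨δ, η₀, hδ0, hδ1, hη₀, X₀, hX₀, hoh⟩
  obtain ⟨K, hK⟩ := exists_nat_ge (4 / δ)
  have hKpos : 0 < K := by
    have : (0 : ℝ) < K := lt_of_lt_of_le (by positivity) hK
    exact_mod_cast this
  have hKδ : 4 ≤ δ * K := by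
    rw [div_le_iff₀ hδ0] at hK
    linarith
  refine ⟨η₀ / 4, by positivity, K, hKpos, fun s => ?_⟩
  have hr : (1 : ℝ) < (2 : ℝ) ^ (3 * δ / 4) := Real.one_lt_rpow (by norm_num) (by positivity)
  obtain ⟨p₁, hp₁⟩ := eventually_big _ hr (2 * 2 ^ s + X₀ + 5)
  refine ⟨p₁ + s + 2, fun p hp L c hKL hc hcs => ?_⟩
  have hpos : (0 : ℝ) < p := by
    have : 0 < p := by omega
    exact_mod_cast this
  have hp1r : (1 : ℝ) ≤ p := by
    have : 1 ≤ p := by omega
    exact_mod_cast this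
  have hLp : L ≤ p := by nlinarith
  have hLδ : (L : ℝ) ≤ δ / 4 * p := by
    have h1 : (K : ℝ) * L ≤ p := by exact_mod_cast hKL
    have h2 : 4 * (L : ℝ) ≤ δ * K * L := mul_le_mul_of_nonneg_right hKδ (by positivity)
    have h3 : δ * (K * L) ≤ δ * p := mul_le_mul_of_nonneg_left h1 hδ0.le
    nlinarith
  obtain ⟨M, hM⟩ : ∃ M : ℕ, M = 2 ^ (p - L) := ⟨_, rfl⟩
  have hMr : (M : ℝ) = (2 : ℝ) ^ ((p : ℝ) - L) := by
    rw [hM]
    push_cast
    rw [← Nat.cast_sub hLp, Real.rpow_natCast]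
  have hbig := hp₁ p (by omega)
  have hrr : ((2 : ℝ) ^ (3 * δ / 4)) ^ p = (2 : ℝ) ^ (3 * δ / 4 * p) := by
    rw [← Real.rpow_natCast ((2 : ℝ) ^ (3 * δ / 4)) p, ← Real.rpow_mul (by norm_num)]
  rw [hrr] at hbig
  have h2s : (0 : ℝ) < 2 ^ s := by positivity
  -- `M` is large
  have hMbig : (2 * 2 ^ s + X₀ + 5) * (p : ℝ) ^ 2 ≤ M := by
    rw [hMr]
    refine hbig.trans (Real.rpow_le_rpow_of_exponent_le (by norm_num) ?_)
    nlinarith
  have hMnat : p * (X₀ + p + 4) ≤ M := by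
    have h1 : (p : ℝ) * (X₀ + p + 4) ≤ M := by
      refine le_trans ?_ hMbig
      have hX : (0 : ℝ) ≤ X₀ := by positivity
      nlinarith [mul_nonneg hX (sub_nonneg.2 hp1r), mul_nonneg hpos.le (sub_nonneg.2 hp1r),
        mul_nonneg (mul_nonneg hX hpos.le) (sub_nonneg.2 hp1r), mul_pos h2s (pow_pos hpos 2)]
    exact_mod_cast h1
  have hcount := count (p := p) (c := c) (M := M) (X₀ := X₀) (by omega) hc hMnat
  have hMpos : (0 : ℝ) < M := by rw [hMr]; positivity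
  -- key inequality
  have hkey : ((2 : ℝ) ^ ((p : ℝ) + s)) ^ (1 - δ) * (2 * p) ≤ M := by
    rw [← Real.rpow_mul (by norm_num), hMr]
    have e1 : ((p : ℝ) + s) * (1 - δ) = p * (1 - δ) + s * (1 - δ) := by ring
    rw [e1, Real.rpow_add (by norm_num)]
    have h3 : (2 : ℝ) ^ ((s : ℝ) * (1 - δ)) ≤ 2 ^ s := by
      rw [← Real.rpow_natCast 2 s]
      refine Real.rpow_le_rpow_of_exponent_le (by norm_num) ?_
      nlinarith [(Nat.cast_nonneg s : (0 : ℝ) ≤ s)]
    have h4 : (2 : ℝ) ^ s * (2 * p) ≤ (2 : ℝ) ^ (3 * δ / 4 * p) := by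
      refine le_trans ?_ hbig
      have hX : (0 : ℝ) ≤ X₀ := by positivity
      nlinarith [mul_nonneg hX (pow_pos hpos 2).le, mul_nonneg (mul_nonneg h2s.le hpos.le)
        (sub_nonneg.2 hp1r), pow_pos hpos 2]
    calc (2 : ℝ) ^ ((p : ℝ) * (1 - δ)) * 2 ^ ((s : ℝ) * (1 - δ)) * (2 * p)
        = (2 : ℝ) ^ ((p : ℝ) * (1 - δ)) * (2 ^ ((s : ℝ) * (1 - δ)) * (2 * p)) := by ring
      _ ≤ (2 : ℝ) ^ ((p : ℝ) * (1 - δ)) * (2 ^ s * (2 * p)) := by gcongr
      _ ≤ (2 : ℝ) ^ ((p : ℝ) * (1 - δ)) * (2 : ℝ) ^ (3 * δ / 4 * p) := by gcongr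
      _ = (2 : ℝ) ^ ((p : ℝ) * (1 - δ) + 3 * δ / 4 * p) := by
          rw [Real.rpow_add (by norm_num)]
      _ ≤ (2 : ℝ) ^ ((p : ℝ) - L) := by
          refine Real.rpow_le_rpow_of_exponent_le (by norm_num) ?_
          nlinarith
  have hterm : ∀ v ∈ Icc 1 p, η₀ / 4 * M / p * (v : ℝ)⁻¹ ≤
      (((Ioc (c * M / v) (c * M / v + (M / v - 1))).filter Nat.Prime).card : ℝ) := by
    intro v hv
    rw [mem_Icc] at hv
    obtain ⟨hv1, hvp⟩ := hv
    have hvr : (0 : ℝ) < v := by exact_mod_cast hv1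
    have hvpr : (v : ℝ) ≤ p := by exact_mod_cast hvp
    have hMv : X₀ + p + 4 ≤ M / v := by
      rw [Nat.le_div_iff_mul_le (by omega)]
      calc (X₀ + p + 4) * v ≤ (X₀ + p + 4) * p := Nat.mul_le_mul_left _ hvp
        _ = p * (X₀ + p + 4) := by ring
        _ ≤ M := hMnat
    have hcM : M / v ≤ c * M / v := Nat.div_le_div_right (by nlinarith)
    -- Y is large
    have hY : (M : ℝ) / (2 * v) ≤ ((M / v - 1 : ℕ) : ℝ) := by
      have h1 : M < v * (M / v + 1) := Nat.lt_mul_div_succ _ (by omega)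
      have h1' : (M : ℝ) < v * ((M / v : ℕ) + 1) := by exact_mod_cast h1
      have h2 : ((M / v - 1 : ℕ) : ℝ) = ((M / v : ℕ) : ℝ) - 1 := by
        rw [Nat.cast_sub (by omega)]
        simp
      rw [h2, div_le_iff₀ (by positivity)]
      have h3 : (4 : ℝ) ≤ ((M / v : ℕ) : ℝ) := by
        have : 4 ≤ M / v := by omega
        exact_mod_cast this
      nlinarith
    have hXle : ((c * M / v : ℕ) : ℝ) ≤ (2 : ℝ) ^ ((p : ℝ) + s) := by
      have h1 : c * M / v ≤ 2 ^ (p + s) := by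
        calc c * M / v ≤ c * M := Nat.div_le_self _ _
          _ ≤ 2 ^ (L + s) * 2 ^ (p - L) := by rw [hM]; exact Nat.mul_le_mul_right _ hcs
          _ = 2 ^ (p + s) := by rw [← pow_add]; congr 1; omega
      have h2 : ((c * M / v : ℕ) : ℝ) ≤ ((2 ^ (p + s) : ℕ) : ℝ) := by exact_mod_cast h1
      refine h2.trans (le_of_eq ?_)
      push_cast
      rw [← Real.rpow_natCast]
      push_cast
      rfl
    have hXge : X₀ ≤ c * M / v := by omega
    have hX2 : (2 : ℝ) ≤ ((c * M / v : ℕ) : ℝ) := by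
      have : 2 ≤ c * M / v := by omega
      exact_mod_cast this
    have hpow : ((c * M / v : ℕ) : ℝ) ^ (1 - δ) ≤ ((M / v - 1 : ℕ) : ℝ) := by
      refine le_trans ?_ hY
      rw [le_div_iff₀ (by positivity)]
      calc ((c * M / v : ℕ) : ℝ) ^ (1 - δ) * (2 * v)
          ≤ ((2 : ℝ) ^ ((p : ℝ) + s)) ^ (1 - δ) * (2 * p) := by
            gcongr
        _ ≤ M := hkey
    have hh := hoh (c * M / v) (M / v - 1) hXge hpow (by omega)
    refine le_trans ?_ hh
    have hlogpos : 0 < Real.log ((c * M / v : ℕ) : ℝ) := Real.log_pos (by linarith)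
    have hlog : Real.log ((c * M / v : ℕ) : ℝ) ≤ 2 * p := by
      have h1 := Real.log_le_log (by linarith) hXle
      rw [Real.log_rpow (by norm_num)] at h1
      have h2 : Real.log 2 ≤ 1 := by
        have := Real.log_two_lt_d9
        linarith
      have h3 : (s : ℝ) ≤ p := by
        have : s ≤ p := by omega
        exact_mod_cast this
      have h4 : 0 ≤ Real.log 2 := Real.log_nonneg (by norm_num)
      nlinarith [(Nat.cast_nonneg s : (0 : ℝ) ≤ s)]
    rw [le_div_iff₀ hlogpos]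
    have h5 : η₀ / 4 * M / p * (v : ℝ)⁻¹ * Real.log ((c * M / v : ℕ) : ℝ) ≤
        η₀ / 4 * M / p * (v : ℝ)⁻¹ * (2 * p) := by
      apply mul_le_mul_of_nonneg_left hlog
      positivity
    refine h5.trans ?_
    have h6 : η₀ / 4 * M / p * (v : ℝ)⁻¹ * (2 * p) = η₀ * (M / (2 * v)) := by
      field_simp
      ring
    rw [h6]
    exact mul_le_mul_of_nonneg_left hY hη₀.le
  have hsum : ∑ v ∈ Icc 1 p, η₀ / 4 * M / p * (v : ℝ)⁻¹ ≤
      (((Ico (c * M) ((c + 1) * M)).filter (fun n => (rp p n).Prime)).card : ℝ) := by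
    refine (Finset.sum_le_sum hterm).trans ?_
    exact_mod_cast hcount
  rw [← Finset.mul_sum] at hsum
  have hharm : Real.log p ≤ ∑ v ∈ Icc 1 p, (v : ℝ)⁻¹ := by
    have h1 := log_add_one_le_harmonic p
    rw [harmonic_eq_sum_Icc] at h1
    push_cast at h1
    refine le_trans (Real.log_le_log hpos ?_) h1
    linarith
  have hgoal : η₀ / 4 * M * (Real.log p / p) ≤ η₀ / 4 * M / p * ∑ v ∈ Icc 1 p, (v : ℝ)⁻¹ := by
    calc η₀ / 4 * M * (Real.log p / p) = η₀ / 4 * M / p * Real.log p := by ring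
      _ ≤ _ := mul_le_mul_of_nonneg_left hharm (by positivity)
  have hfin := hgoal.trans hsum
  rw [hM] at hfin
  push_cast at hfin
  exact hfin

end Pool.Agent.H555R4.LW.L1
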