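import Pool.Agent.H555R4.LW.F4
import Pool.Agent.H555R4.LW.A
import Pool.Agent.H555R4.LW.B1
import Pool.Agent.H555R4.LW.B2
import Pool.Agent.H555R4.LW.Ch
import Pool.Agent.H555R4.LW.E1
import Pool.Agent.H555R4.LW.L1
import Pool.Agent.H555R4.LW.U1
import Pool.Agent.H555R4.LW.U2
import Pool.Agent.H295R3.Hoheisel

set_option autoImplicit false

open Finset MeasureTheory Filter Topology

namespace Pool.Agent.H555R4.LW

theorem stE : StE :=
  E1.taskE1 taskCh (U1.taskU1 A.taskA B1.taskB1) (U2.taskU2 A.taskA B1.taskB1 B2.taskB2)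
    (L1.taskL1 Pool.Agent.H295R3.D.hoheisel)

theorem order_ae : ∃ c C : ℝ, 0 < c ∧ ∀ᵐ β : ℝ, 0 < β → ∀ᶠ n : ℕ in atTop,
    c * Real.log n ≤ cnt β n ∧ (cnt β n : ℝ) ≤ C * Real.log n := taskF stE

end Pool.Agent.H555R4.LW
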