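import Pool.Agent.H555R4.LW.Stmts

set_option autoImplicit false

open Finset MeasureTheory Filter Topology

namespace Pool.Agent.H555R4.LW

/-- largest integer below `β 2 ^ P` -/
noncomputable def dg (P : ℕ) (β : ℝ) : ℕ := ⌈β * 2 ^ P⌉₊ - 1

lemma dg_spec {P : ℕ} {β : ℝ} (hβ : 0 < β) :
    (dg P β : ℝ) < β * 2 ^ P ∧ β * 2 ^ P ≤ (dg P β : ℝ) + 1 := by
  have h0 : 0 < β * 2 ^ P := by positivity
  have h1 : 0 < ⌈β * 2 ^ P⌉₊ := Nat.ceil_pos.2 h0
  have h2 : ((dg P β : ℕ) : ℝ) + 1 = (⌈β * 2 ^ P⌉₊ : ℝ) := by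
    unfold dg
    rw [Nat.cast_pred h1]
    ring
  constructor
  · have := Nat.ceil_lt_add_one h0.le
    linarith
  · rw [h2]; exact Nat.le_ceil _

lemma dg_unique {P : ℕ} {β : ℝ} {m : ℕ} (h1 : (m : ℝ) < β * 2 ^ P) (h2 : β * 2 ^ P ≤ (m : ℝ) + 1) :
    dg P β = m := by
  have h3 : ⌈β * 2 ^ P⌉₊ = m + 1 := by
    rw [Nat.ceil_eq_iff (Nat.succ_ne_zero m)]
    constructor
    · simpa using h1
    · push_cast; exact h2
  unfold dg
  rw [h3, Nat.add_sub_cancel]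

lemma dg_div {p P : ℕ} {β : ℝ} (hβ : 0 < β) (h : p ≤ P) : dg p β = dg P β / 2 ^ (P - p) := by
  obtain ⟨h1, h2⟩ := dg_spec (P := P) hβ
  set N := dg P β with hN
  have hP : (2 : ℝ) ^ P = 2 ^ p * 2 ^ (P - p) := by
    rw [← pow_add]; congr 1; omega
  have hj : (0 : ℝ) < 2 ^ (P - p) := by positivity
  have hjn : 0 < 2 ^ (P - p) := by positivity
  apply dg_unique
  · have h3 : N / 2 ^ (P - p) * 2 ^ (P - p) ≤ N := Nat.div_mul_le_self _ _
    have h4 : ((N / 2 ^ (P - p) : ℕ) : ℝ) * 2 ^ (P - p) ≤ N := by exact_mod_cast h3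
    have h5 : ((N / 2 ^ (P - p) : ℕ) : ℝ) * 2 ^ (P - p) < β * 2 ^ p * 2 ^ (P - p) := by
      rw [mul_assoc, ← hP]; linarith
    exact lt_of_mul_lt_mul_right h5 hj.le
  · have h3 : N < (N / 2 ^ (P - p) + 1) * 2 ^ (P - p) := by
      have := Nat.lt_div_mul_add hjn (a := N)
      rw [add_mul, one_mul]; exact this
    have h4 : ((N + 1 : ℕ) : ℝ) ≤ (((N / 2 ^ (P - p) + 1) * 2 ^ (P - p) : ℕ) : ℝ) := by
      exact_mod_cast h3
    push_cast at h4
    have h5 : β * 2 ^ p * 2 ^ (P - p) ≤ (((N / 2 ^ (P - p) : ℕ) : ℝ) + 1) * 2 ^ (P - p) := by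
      rw [mul_assoc, ← hP]; push_cast; linarith
    exact le_of_mul_le_mul_right h5 hj

/-- binary cell of level `L` -/
def cell (L c : ℕ) : Set ℝ := {β | (c : ℝ) < β * 2 ^ L ∧ β * 2 ^ L ≤ (c : ℝ) + 1}

lemma cell_eq (L c : ℕ) : cell L c = Set.Ioc ((c : ℝ) / 2 ^ L) (((c : ℝ) + 1) / 2 ^ L) := by
  have h : (0 : ℝ) < 2 ^ L := by positivity
  ext β
  simp only [cell, Set.mem_ofPred_eq, Set.mem_Ioc]
  rw [div_lt_iff₀ h, le_div_iff₀ h]

lemma vol_cell (L c : ℕ) : volume (cell L c) = ENNReal.ofReal (1 / 2 ^ L) := by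
  rw [cell_eq, Real.volume_Ioc]
  congr 1
  ring

lemma cell_pos {L c : ℕ} {β : ℝ} (h : β ∈ cell L c) : 0 < β := by
  have h1 : (0 : ℝ) ≤ c := Nat.cast_nonneg c
  have h2 : 0 < β * 2 ^ L := lt_of_le_of_lt h1 h.1
  exact pos_of_mul_pos_left h2 (by positivity)

lemma dg_cell {L c : ℕ} {β : ℝ} (h : β ∈ cell L c) : dg L β = c := dg_unique h.1 h.2

lemma mem_cell_dg {L : ℕ} {β : ℝ} (h : 0 < β) : β ∈ cell L (dg L β) := dg_spec h

/-- the integers of level `P` below the cell `(L, m)` -/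
def kids (L P m : ℕ) : Finset ℕ := Ico (m * 2 ^ (P - L)) ((m + 1) * 2 ^ (P - L))

lemma mem_kids {L P m n : ℕ} : n ∈ kids L P m ↔ n / 2 ^ (P - L) = m := by
  have h : 0 < 2 ^ (P - L) := by positivity
  unfold kids
  rw [mem_Ico]
  constructor
  · rintro ⟨h1, h2⟩
    rw [Nat.div_eq_iff h]
    constructor
    · linarith
    · rw [Nat.add_mul, one_mul] at h2; omega
  · rintro rfl
    refine ⟨Nat.div_mul_le_self _ _, ?_⟩
    have := Nat.lt_div_mul_add h (a := n)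
    rw [add_mul, one_mul]; exact this

lemma card_kids (L P m : ℕ) : (kids L P m).card = 2 ^ (P - L) := by
  unfold kids
  rw [Nat.card_Ico, Nat.add_mul, one_mul, Nat.add_sub_cancel_left]

lemma dg_mem_kids {L P m : ℕ} {β : ℝ} (h : β ∈ cell L m) (hLP : L ≤ P) : dg P β ∈ kids L P m := by
  rw [mem_kids, ← dg_div (cell_pos h) hLP, dg_cell h]

open Classical in
lemma vol_le {L P m : ℕ} (hLP : L ≤ P) (Φ : ℕ → Prop) :
    volume {β | β ∈ cell L m ∧ Φ (dg P β)} ≤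
      ENNReal.ofReal ((((kids L P m).filter Φ).card : ℝ) / 2 ^ P) := by
  have hsub : {β | β ∈ cell L m ∧ Φ (dg P β)} ⊆ ⋃ n ∈ (kids L P m).filter Φ, cell P n := by
    rintro β ⟨h1, h2⟩
    simp only [Set.mem_iUnion]
    exact ⟨dg P β, mem_filter.2 ⟨dg_mem_kids h1 hLP, h2⟩, mem_cell_dg (cell_pos h1)⟩
  refine (measure_mono hsub).trans ((measure_biUnion_finset_le _ _).trans ?_)
  simp only [vol_cell]
  rw [sum_const, nsmul_eq_mul, ENNReal.ofReal_div_of_pos (by positivity),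
    ENNReal.ofReal_div_of_pos (by positivity), ENNReal.ofReal_one, ENNReal.ofReal_natCast,
    mul_one_div]

lemma sum_kids {L P Q m : ℕ} (h1 : L ≤ P) (h2 : P ≤ Q) (f : ℕ → ℝ) :
    ∑ n ∈ kids L Q m, f n = ∑ k ∈ kids L P m, ∑ n ∈ kids P Q k, f n := by
  rw [← Finset.sum_biUnion]
  · apply Finset.sum_congr _ (fun _ _ => rfl)
    ext n
    simp only [mem_biUnion, mem_kids]
    have e : 2 ^ (Q - L) = 2 ^ (Q - P) * 2 ^ (P - L) := by
      rw [← pow_add]; congr 1; omega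
    rw [e, ← Nat.div_div_eq_div_mul]
    constructor
    · intro h
      exact ⟨n / 2 ^ (Q - P), h, rfl⟩
    · rintro ⟨k, h, rfl⟩
      exact h
  · intro a _ b _ hab
    simp only [Function.onFun]
    rw [Finset.disjoint_left]
    intro n hn hn'
    rw [mem_kids] at hn hn'
    exact hab (hn.symm.trans hn')

/-- the chain of levels -/
structure Chain (lam : ℕ → ℕ) : Prop where
  mono : ∀ j, lam j ≤ lam (j + 1)

lemma Chain.le {lam : ℕ → ℕ} (h : Chain lam) {i j : ℕ} (hij : i ≤ j) : lam i ≤ lam j :=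
  monotone_nat_of_le_succ h.mono hij

/-- product of the local factors -/
noncomputable def PG (lam : ℕ → ℕ) (g : ℕ → ℕ → ℝ) (J n : ℕ) : ℝ :=
  ∏ j ∈ range J, g j (n / 2 ^ (lam J - lam (j + 1)))

lemma PG_succ {lam : ℕ → ℕ} (h : Chain lam) (g : ℕ → ℕ → ℝ) (J : ℕ) {m n : ℕ}
    (hn : n ∈ kids (lam J) (lam (J + 1)) m) :
    PG lam g (J + 1) n = PG lam g J m * g J n := by
  unfold PG
  rw [prod_range_succ, Nat.sub_self, pow_zero, Nat.div_one]
  congr 1
  apply prod_congr rfl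
  intro j hj
  have hj' : j + 1 ≤ J := mem_range.1 hj
  have e : 2 ^ (lam (J + 1) - lam (j + 1)) =
      2 ^ (lam (J + 1) - lam J) * 2 ^ (lam J - lam (j + 1)) := by
    rw [← pow_add]; congr 1
    have := h.le hj'
    have := h.mono J
    omega
  rw [e, ← Nat.div_div_eq_div_mul, mem_kids.1 hn]

lemma exp_sum {lam : ℕ → ℕ} (h : Chain lam) {g : ℕ → ℕ → ℝ} (hg : ∀ j n, 0 ≤ g j n) {ρ : ℝ}
    (hρ : 0 ≤ ρ) {m₀ : ℕ} (hstep : ∀ j, ∀ m ∈ kids (lam 0) (lam j) m₀,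
      ∑ n ∈ kids (lam j) (lam (j + 1)) m, g j n ≤ ρ * 2 ^ (lam (j + 1) - lam j)) (J : ℕ) :
    ∑ n ∈ kids (lam 0) (lam J) m₀, PG lam g J n ≤ ρ ^ J * 2 ^ (lam J - lam 0) := by
  induction J with
  | zero =>
    have e : kids (lam 0) (lam 0) m₀ = {m₀} := by
      ext n
      rw [mem_kids, Nat.sub_self, pow_zero, Nat.div_one, mem_singleton]
    rw [e, sum_singleton]
    simp [PG]
  | succ J ih =>
    rw [sum_kids (h.le (Nat.zero_le J)) (h.mono J)]
    have hPG : ∀ m, 0 ≤ PG lam g J m := fun m => prod_nonneg fun j _ => hg _ _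
    calc ∑ k ∈ kids (lam 0) (lam J) m₀, ∑ n ∈ kids (lam J) (lam (J + 1)) k, PG lam g (J + 1) n
        = ∑ k ∈ kids (lam 0) (lam J) m₀,
            PG lam g J k * ∑ n ∈ kids (lam J) (lam (J + 1)) k, g J n := by
          apply sum_congr rfl
          intro k _
          rw [mul_sum]
          exact sum_congr rfl fun n hn => PG_succ h g J hn
      _ ≤ ∑ k ∈ kids (lam 0) (lam J) m₀, PG lam g J k * (ρ * 2 ^ (lam (J + 1) - lam J)) :=
          sum_le_sum fun k hk => mul_le_mul_of_nonneg_left (hstep J k hk) (hPG k)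
      _ = (ρ * 2 ^ (lam (J + 1) - lam J)) * ∑ k ∈ kids (lam 0) (lam J) m₀, PG lam g J k := by
          rw [← sum_mul]; ring
      _ ≤ (ρ * 2 ^ (lam (J + 1) - lam J)) * (ρ ^ J * 2 ^ (lam J - lam 0)) :=
          mul_le_mul_of_nonneg_left ih (by positivity)
      _ = ρ ^ (J + 1) * 2 ^ (lam (J + 1) - lam 0) := by
          have e : (2 : ℝ) ^ (lam (J + 1) - lam 0) =
              2 ^ (lam (J + 1) - lam J) * 2 ^ (lam J - lam 0) := by
            rw [← pow_add]; congr 1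
            have := h.le (Nat.zero_le J)
            have := h.mono J
            omega
          rw [e]; ring

/-- Markov's inequality for the product -/
lemma vol_exp {lam : ℕ → ℕ} (h : Chain lam) {g : ℕ → ℕ → ℝ} (hg : ∀ j n, 0 ≤ g j n) {ρ : ℝ}
    (hρ : 0 ≤ ρ) {m₀ : ℕ} (hstep : ∀ j, ∀ m ∈ kids (lam 0) (lam j) m₀,
      ∑ n ∈ kids (lam j) (lam (j + 1)) m, g j n ≤ ρ * 2 ^ (lam (j + 1) - lam j)) (J : ℕ) {t : ℝ}
    (ht : 0 < t) :
    volume {β | β ∈ cell (lam 0) m₀ ∧ t ≤ ∏ j ∈ range J, g j (dg (lam (j + 1)) β)} ≤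
      ENNReal.ofReal (ρ ^ J / t) := by
  classical
  have hsub : {β | β ∈ cell (lam 0) m₀ ∧ t ≤ ∏ j ∈ range J, g j (dg (lam (j + 1)) β)} ⊆
      {β | β ∈ cell (lam 0) m₀ ∧ (fun n => t ≤ PG lam g J n) (dg (lam J) β)} := by
    rintro β ⟨h1, h2⟩
    refine ⟨h1, ?_⟩
    show t ≤ PG lam g J (dg (lam J) β)
    have e : PG lam g J (dg (lam J) β) = ∏ j ∈ range J, g j (dg (lam (j + 1)) β) := by
      unfold PG
      apply prod_congr rfl
      intro j hj
      rw [← dg_div (cell_pos h1) (h.le (mem_range.1 hj))]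
    rw [e]; exact h2
  refine (measure_mono hsub).trans ((vol_le (m := m₀) (h.le (Nat.zero_le J))
    (fun n => t ≤ PG lam g J n)).trans ?_)
  apply ENNReal.ofReal_le_ofReal
  have hdec : ((kids (lam 0) (lam J) m₀).filter (fun n => t ≤ PG lam g J n)).card =
      (@Finset.filter ℕ (fun n => t ≤ PG lam g J n) (fun a => Classical.propDecidable _)
        (kids (lam 0) (lam J) m₀)).card := by congr
  have h1 := exp_sum h hg hρ hstep J
  have hPG : ∀ m, 0 ≤ PG lam g J m := fun m => prod_nonneg fun j _ => hg _ _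
  have h2 : t * (((kids (lam 0) (lam J) m₀).filter (fun n => t ≤ PG lam g J n)).card : ℝ) ≤
      ∑ n ∈ kids (lam 0) (lam J) m₀, PG lam g J n := by
    calc t * (((kids (lam 0) (lam J) m₀).filter (fun n => t ≤ PG lam g J n)).card : ℝ)
        = ∑ n ∈ (kids (lam 0) (lam J) m₀).filter (fun n => t ≤ PG lam g J n), t := by
          rw [sum_const, nsmul_eq_mul, mul_comm]
      _ ≤ ∑ n ∈ (kids (lam 0) (lam J) m₀).filter (fun n => t ≤ PG lam g J n), PG lam g J n :=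
          sum_le_sum fun n hn => (mem_filter.1 hn).2
      _ ≤ _ := sum_le_sum_of_subset_of_nonneg (filter_subset _ _) fun n _ _ => hPG n
  have h3 : (2 : ℝ) ^ (lam J - lam 0) ≤ 2 ^ lam J :=
    pow_le_pow_right₀ (by norm_num) (Nat.sub_le _ _)
  rw [div_le_div_iff₀ (by positivity) ht]
  calc (((kids (lam 0) (lam J) m₀).filter (fun n => t ≤ PG lam g J n)).card : ℝ) * t
      ≤ ρ ^ J * 2 ^ (lam J - lam 0) := by rw [mul_comm]; exact h2.trans h1
    _ ≤ ρ ^ J * 2 ^ lam J := mul_le_mul_of_nonneg_left h3 (by positivity)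

end Pool.Agent.H555R4.LW
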