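import Pool.Agent.H555R4.LW.F1

set_option autoImplicit false

open Finset MeasureTheory Filter Topology

namespace Pool.Agent.H555R4.LW

lemma exp_lt_one' {x : ℝ} (h : x < 0) : Real.exp x < 1 := by
  rw [← Real.exp_zero]; exact Real.exp_lt_exp.2 h

/-- hypothesis of the abstract part: moments on the cells below `m₀` -/
structure HM (lam : ℕ → ℕ) (Y : ℕ → ℕ → ℕ) (c₁ C₁ : ℝ) (m₀ : ℕ) : Prop where
  low : ∀ j, ∀ m ∈ kids (lam 0) (lam j) m₀,
    c₁ * 2 ^ (lam (j + 1) - lam j) ≤ ∑ n ∈ kids (lam j) (lam (j + 1)) m, (Y j n : ℝ)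
  sq : ∀ j, ∀ m ∈ kids (lam 0) (lam j) m₀,
    ∑ n ∈ kids (lam j) (lam (j + 1)) m, (Y j n : ℝ) ^ 2 ≤ C₁ * 2 ^ (lam (j + 1) - lam j)

/-- Cauchy-Schwarz: many non zero values -/
lemma card_pos_ge {s : Finset ℕ} {Y : ℕ → ℕ} {c₁ C₁ D : ℝ} (hc : 0 < c₁) (hC : 0 < C₁)
    (hD : 0 < D) (h1 : c₁ * D ≤ ∑ n ∈ s, (Y n : ℝ)) (h2 : ∑ n ∈ s, (Y n : ℝ) ^ 2 ≤ C₁ * D) :
    c₁ ^ 2 / C₁ * D ≤ ((s.filter (fun n => Y n ≠ 0)).card : ℝ) := by
  have h3 : ∑ n ∈ s, (Y n : ℝ) = ∑ n ∈ s.filter (fun n => Y n ≠ 0), (Y n : ℝ) * 1 := by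
    rw [sum_filter]
    apply sum_congr rfl
    intro n _
    by_cases h : Y n = 0
    · simp [h]
    · simp [h]
  have h4 := Finset.sum_mul_sq_le_sq_mul_sq (s.filter (fun n => Y n ≠ 0))
    (fun n => (Y n : ℝ)) (fun _ => 1)
  rw [← h3] at h4
  simp only [one_pow, sum_const, nsmul_eq_mul, mul_one] at h4
  have h5 : ∑ n ∈ s.filter (fun n => Y n ≠ 0), (Y n : ℝ) ^ 2 ≤ C₁ * D :=
    (sum_le_sum_of_subset_of_nonneg (filter_subset _ _) fun n _ _ => by positivity).trans h2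
  have h6 : (c₁ * D) ^ 2 ≤ (∑ n ∈ s, (Y n : ℝ)) ^ 2 := pow_le_pow_left₀ (by positivity) h1 2
  have h7 : (c₁ * D) ^ 2 ≤ C₁ * D * ((s.filter (fun n => Y n ≠ 0)).card : ℝ) :=
    h6.trans (h4.trans (mul_le_mul_of_nonneg_right h5 (Nat.cast_nonneg _)))
  rw [div_mul_eq_mul_div, div_le_iff₀ hC]
  have h8 : c₁ ^ 2 * D * D ≤ ((s.filter (fun n => Y n ≠ 0)).card : ℝ) * C₁ * D := by nlinarith
  exact le_of_mul_le_mul_right h8 hD

lemma tsum_ne_top_of_geom {r : ℝ} (h0 : 0 ≤ r) (h1 : r < 1) {f : ℕ → ENNReal}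
    (hf : ∀ J, f J ≤ ENNReal.ofReal (r ^ J)) : ∑' J, f J ≠ ⊤ := by
  apply ne_top_of_le_ne_top _ (ENNReal.tsum_le_tsum hf)
  rw [← ENNReal.ofReal_tsum_of_nonneg (fun n => pow_nonneg h0 n)
    (summable_geometric_of_lt_one h0 h1)]
  exact ENNReal.ofReal_ne_top

/-- the constant in the lower bound -/
noncomputable def rho (c₁ C₁ : ℝ) : ℝ := 1 - (1 - Real.exp (-1)) * min (c₁ ^ 2 / C₁) 1

lemma rho_pos {c₁ C₁ : ℝ} (hc : 0 < c₁) (hC : 0 < C₁) : 0 < rho c₁ C₁ := by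
  have h1 : Real.exp (-1) < 1 := exp_lt_one' (by norm_num)
  have h2 := Real.exp_pos (-1)
  have h3 : min (c₁ ^ 2 / C₁) 1 ≤ 1 := min_le_right _ _
  have h4 : 0 < min (c₁ ^ 2 / C₁) 1 := lt_min (by positivity) one_pos
  unfold rho
  nlinarith

lemma rho_lt {c₁ C₁ : ℝ} (hc : 0 < c₁) (hC : 0 < C₁) : rho c₁ C₁ < 1 := by
  have h1 : Real.exp (-1) < 1 := exp_lt_one' (by norm_num)
  have h4 : 0 < min (c₁ ^ 2 / C₁) 1 := lt_min (by positivity) one_pos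
  unfold rho
  have := mul_pos (sub_pos.2 h1) h4
  linarith

noncomputable def theta (c₁ C₁ : ℝ) : ℝ := -Real.log (rho c₁ C₁) / 2

lemma theta_pos {c₁ C₁ : ℝ} (hc : 0 < c₁) (hC : 0 < C₁) : 0 < theta c₁ C₁ := by
  have := Real.log_neg (rho_pos hc hC) (rho_lt hc hC)
  unfold theta
  linarith

lemma lower_ae {lam : ℕ → ℕ} (h : Chain lam) {Y : ℕ → ℕ → ℕ} {c₁ C₁ : ℝ} (hc : 0 < c₁)
    (hC : 0 < C₁) {m₀ : ℕ} (H : HM lam Y c₁ C₁ m₀) :
    ∀ᵐ β : ℝ, β ∈ cell (lam 0) m₀ → ∀ᶠ J : ℕ in atTop,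
      theta c₁ C₁ * J ≤ ∑ j ∈ range J, (Y j (dg (lam (j + 1)) β) : ℝ) := by
  classical
  set ρ := rho c₁ C₁ with hρ
  set θ := theta c₁ C₁ with hθ
  have hρ0 : 0 < ρ := rho_pos hc hC
  have hρ1 : ρ < 1 := rho_lt hc hC
  have hθ0 : 0 < θ := theta_pos hc hC
  set g : ℕ → ℕ → ℝ := fun j n => if Y j n ≠ 0 then Real.exp (-1) else 1 with hg
  have hg0 : ∀ j n, 0 ≤ g j n := by
    intro j n; simp only [hg]; split_ifs
    · exact (Real.exp_pos _).le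
    · exact zero_le_one
  have he1 : Real.exp (-1) < 1 := exp_lt_one' (by norm_num)
  have hstep : ∀ j, ∀ m ∈ kids (lam 0) (lam j) m₀,
      ∑ n ∈ kids (lam j) (lam (j + 1)) m, g j n ≤ ρ * 2 ^ (lam (j + 1) - lam j) := by
    intro j m hm
    set S := kids (lam j) (lam (j + 1)) m with hS
    have hcard := card_pos_ge (s := S) (Y := Y j) (D := 2 ^ (lam (j + 1) - lam j)) hc hC
      (by positivity) (H.low j m hm) (H.sq j m hm)
    have e1 : ∑ n ∈ S, g j n = (S.card : ℝ) -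
        (1 - Real.exp (-1)) * ((S.filter (fun n => Y j n ≠ 0)).card : ℝ) := by
      have : ∀ n ∈ S, g j n = 1 - (1 - Real.exp (-1)) * (if Y j n ≠ 0 then 1 else 0) := by
        intro n _
        simp only [hg]
        split_ifs <;> ring
      rw [sum_congr rfl this, sum_sub_distrib, ← mul_sum, sum_boole]
      simp
    rw [e1, hS, card_kids]
    push_cast
    have h5 : min (c₁ ^ 2 / C₁) 1 * 2 ^ (lam (j + 1) - lam j) ≤
        (((kids (lam j) (lam (j + 1)) m).filter (fun n => Y j n ≠ 0)).card : ℝ) :=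
      le_trans (mul_le_mul_of_nonneg_right (min_le_left _ _) (by positivity)) hcard
    have h6 := mul_le_mul_of_nonneg_left h5 (sub_nonneg.2 he1.le)
    have h7 : ρ * 2 ^ (lam (j + 1) - lam j) = 2 ^ (lam (j + 1) - lam j) -
      (1 - Real.exp (-1)) * (min (c₁ ^ 2 / C₁) 1 * 2 ^ (lam (j + 1) - lam j)) := by
      rw [hρ, rho]; ring
    rw [h7]
    linarith
  have hr : ρ * Real.exp θ < 1 := by
    have e : ρ * Real.exp θ = Real.exp (-θ) := by
      have : ρ = Real.exp (-(2 * θ)) := by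
        rw [hθ, theta, ← hρ]
        rw [show -(2 * (-Real.log ρ / 2)) = Real.log ρ by ring, Real.exp_log hρ0]
      rw [this, ← Real.exp_add]; congr 1; ring
    rw [e]; exact exp_lt_one' (by linarith)
  have hvol : ∀ J : ℕ, volume {β | β ∈ cell (lam 0) m₀ ∧
      Real.exp (-(θ * J)) ≤ ∏ j ∈ range J, g j (dg (lam (j + 1)) β)} ≤
      ENNReal.ofReal ((ρ * Real.exp θ) ^ J) := by
    intro J
    refine (vol_exp h hg0 hρ0.le hstep J (Real.exp_pos _)).trans (ENNReal.ofReal_le_ofReal ?_)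
    rw [mul_pow, ← Real.exp_nat_mul, Real.exp_neg, div_inv_eq_mul, mul_comm (J : ℝ) θ]
  have hsum := tsum_ne_top_of_geom (by positivity) hr hvol
  filter_upwards [ae_eventually_notMem hsum] with β hβ hcell
  filter_upwards [hβ] with J hJ
  by_contra hlt
  push Not at hlt
  apply hJ
  refine ⟨hcell, ?_⟩
  have h1 : ∀ j ∈ range J, Real.exp (-(Y j (dg (lam (j + 1)) β) : ℝ)) ≤
      g j (dg (lam (j + 1)) β) := by
    intro j _
    simp only [hg]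
    split_ifs with hY
    · apply Real.exp_le_exp.2
      have : 1 ≤ Y j (dg (lam (j + 1)) β) := Nat.one_le_iff_ne_zero.2 hY
      have : (1 : ℝ) ≤ (Y j (dg (lam (j + 1)) β) : ℝ) := by exact_mod_cast this
      linarith
    · apply Real.exp_le_one_iff.2
      simp
  calc Real.exp (-(θ * J)) ≤ Real.exp (-(∑ j ∈ range J, (Y j (dg (lam (j + 1)) β) : ℝ))) :=
        Real.exp_le_exp.2 (by linarith)
    _ = ∏ j ∈ range J, Real.exp (-(Y j (dg (lam (j + 1)) β) : ℝ)) := by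
        rw [← Real.exp_sum, sum_neg_distrib]
    _ ≤ _ := prod_le_prod (fun _ _ => (Real.exp_pos _).le) h1

end Pool.Agent.H555R4.LW
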