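import Pool.Agent.H555R4.LW.F2

set_option autoImplicit false

open Finset MeasureTheory Filter Topology

namespace Pool.Agent.H555R4.LW

lemma exp_le_one_add_two {x : ℝ} (h0 : 0 ≤ x) (h1 : x ≤ 1) : Real.exp x ≤ 1 + 2 * x := by
  have h := Real.abs_exp_sub_one_sub_id_le (x := x) (by rw [abs_of_nonneg h0]; exact h1)
  have h2 := (abs_le.1 h).2
  nlinarith

lemma exp_neg_le {y : ℝ} (hy : 0 < y) : Real.exp (-y) ≤ 720 / y ^ 6 := by
  have h := Real.pow_div_factorial_le_exp y hy.le 6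
  have h6 : ((Nat.factorial 6 : ℕ) : ℝ) = 720 := by norm_num [Nat.factorial]
  rw [h6] at h
  rw [Real.exp_neg, inv_le_comm₀ (Real.exp_pos _) (by positivity)]
  rw [inv_div]
  exact h

lemma sum_le_sq (s : Finset ℕ) (Y : ℕ → ℕ) : ∑ n ∈ s, (Y n : ℝ) ≤ ∑ n ∈ s, (Y n : ℝ) ^ 2 := by
  apply sum_le_sum
  intro n _
  have : Y n ≤ Y n ^ 2 := Nat.le_self_pow (by norm_num) _
  exact_mod_cast this

/-- Chebyshev: few large values -/
lemma vol_large {lam : ℕ → ℕ} (h : Chain lam) {Y : ℕ → ℕ → ℕ} {c₁ C₁ : ℝ}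
    (hC : 0 < C₁) {m₀ : ℕ} (H : HM lam Y c₁ C₁ m₀) (j : ℕ) {T : ℝ} (hT : 0 < T) :
    volume {β | β ∈ cell (lam 0) m₀ ∧ T < (Y j (dg (lam (j + 1)) β) : ℝ)} ≤
      ENNReal.ofReal (C₁ / T ^ 2) := by
  classical
  refine (vol_le (m := m₀) (h.le (Nat.zero_le (j + 1))) (fun n => T < (Y j n : ℝ))).trans ?_
  apply ENNReal.ofReal_le_ofReal
  have h1 : ∑ n ∈ kids (lam 0) (lam (j + 1)) m₀, (Y j n : ℝ) ^ 2 ≤ C₁ * 2 ^ (lam (j + 1)) := by
    rw [sum_kids (h.le (Nat.zero_le j)) (h.mono j)]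
    calc ∑ k ∈ kids (lam 0) (lam j) m₀, ∑ n ∈ kids (lam j) (lam (j + 1)) k, (Y j n : ℝ) ^ 2
        ≤ ∑ k ∈ kids (lam 0) (lam j) m₀, C₁ * 2 ^ (lam (j + 1) - lam j) :=
          sum_le_sum fun k hk => H.sq j k hk
      _ = C₁ * (2 ^ (lam j - lam 0) * 2 ^ (lam (j + 1) - lam j)) := by
          rw [sum_const, card_kids, nsmul_eq_mul]; push_cast; ring
      _ ≤ C₁ * 2 ^ (lam (j + 1)) := by
          apply mul_le_mul_of_nonneg_left _ hC.le
          rw [← pow_add]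
          apply pow_le_pow_right₀ (by norm_num)
          have := h.mono j
          omega
  have h2 : T ^ 2 * (((kids (lam 0) (lam (j + 1)) m₀).filter (fun n => T < (Y j n : ℝ))).card : ℝ) ≤
      ∑ n ∈ kids (lam 0) (lam (j + 1)) m₀, (Y j n : ℝ) ^ 2 := by
    calc T ^ 2 * (((kids (lam 0) (lam (j + 1)) m₀).filter (fun n => T < (Y j n : ℝ))).card : ℝ)
        = ∑ n ∈ (kids (lam 0) (lam (j + 1)) m₀).filter (fun n => T < (Y j n : ℝ)), T ^ 2 := by
          rw [sum_const, nsmul_eq_mul, mul_comm]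
      _ ≤ ∑ n ∈ (kids (lam 0) (lam (j + 1)) m₀).filter (fun n => T < (Y j n : ℝ)),
            (Y j n : ℝ) ^ 2 :=
          sum_le_sum fun n hn => pow_le_pow_left₀ hT.le (mem_filter.1 hn).2.le 2
      _ ≤ _ := sum_le_sum_of_subset_of_nonneg (filter_subset _ _) fun n _ _ => by positivity
  have h3 : (((kids (lam 0) (lam (j + 1)) m₀).filter (fun n => T < (Y j n : ℝ))).card : ℝ) * T ^ 2 ≤
      C₁ * 2 ^ lam (j + 1) := by rw [mul_comm]; exact h2.trans h1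
  have h4 : (((kids (lam 0) (lam (j + 1)) m₀).filter (fun n => T < (Y j n : ℝ))).card : ℝ) /
      2 ^ lam (j + 1) ≤ C₁ / T ^ 2 := by
    rw [div_le_div_iff₀ (by positivity) (by positivity)]
    exact h3
  convert h4 using 4

/-- exponential moment of the truncated sum -/
lemma vol_trunc {lam : ℕ → ℕ} (h : Chain lam) {Y : ℕ → ℕ → ℕ} {c₁ C₁ : ℝ}
    {m₀ : ℕ} (H : HM lam Y c₁ C₁ m₀) (J : ℕ) {T : ℝ} (hT : 0 < T) :
    volume {β | β ∈ cell (lam 0) m₀ ∧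
      (2 * C₁ + 1) * J ≤ ∑ j ∈ range J, min (Y j (dg (lam (j + 1)) β) : ℝ) T} ≤
      ENNReal.ofReal (Real.exp (-(J / T))) := by
  set g : ℕ → ℕ → ℝ := fun j n => Real.exp (T⁻¹ * min (Y j n : ℝ) T) with hg
  have hg0 : ∀ j n, 0 ≤ g j n := fun j n => (Real.exp_pos _).le
  have hTi : 0 < T⁻¹ := inv_pos.2 hT
  have hstep : ∀ j, ∀ m ∈ kids (lam 0) (lam j) m₀,
      ∑ n ∈ kids (lam j) (lam (j + 1)) m, g j n ≤
        Real.exp (2 * T⁻¹ * C₁) * 2 ^ (lam (j + 1) - lam j) := by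
    intro j m hm
    have h1 : ∀ n, g j n ≤ 1 + 2 * T⁻¹ * (Y j n : ℝ) := by
      intro n
      have hm0 : 0 ≤ min (Y j n : ℝ) T := le_min (Nat.cast_nonneg _) hT.le
      have hm1 : T⁻¹ * min (Y j n : ℝ) T ≤ 1 := by
        calc T⁻¹ * min (Y j n : ℝ) T ≤ T⁻¹ * T :=
              mul_le_mul_of_nonneg_left (min_le_right _ _) hTi.le
          _ = 1 := inv_mul_cancel₀ hT.ne'
      have := exp_le_one_add_two (mul_nonneg hTi.le hm0) hm1
      have h3 : T⁻¹ * min (Y j n : ℝ) T ≤ T⁻¹ * (Y j n : ℝ) :=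
        mul_le_mul_of_nonneg_left (min_le_left _ _) hTi.le
      simp only [hg]
      linarith
    have h2 : ∑ n ∈ kids (lam j) (lam (j + 1)) m, (Y j n : ℝ) ≤ C₁ * 2 ^ (lam (j + 1) - lam j) :=
      (sum_le_sq _ _).trans (H.sq j m hm)
    calc ∑ n ∈ kids (lam j) (lam (j + 1)) m, g j n
        ≤ ∑ n ∈ kids (lam j) (lam (j + 1)) m, (1 + 2 * T⁻¹ * (Y j n : ℝ)) :=
          sum_le_sum fun n _ => h1 n
      _ = 2 ^ (lam (j + 1) - lam j) +
            2 * T⁻¹ * ∑ n ∈ kids (lam j) (lam (j + 1)) m, (Y j n : ℝ) := by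
          rw [sum_add_distrib, ← mul_sum, sum_const, card_kids]; simp
      _ ≤ 2 ^ (lam (j + 1) - lam j) + 2 * T⁻¹ * (C₁ * 2 ^ (lam (j + 1) - lam j)) := by
          have := mul_le_mul_of_nonneg_left h2 (show 0 ≤ 2 * T⁻¹ by positivity)
          linarith
      _ = (2 * T⁻¹ * C₁ + 1) * 2 ^ (lam (j + 1) - lam j) := by ring
      _ ≤ _ := mul_le_mul_of_nonneg_right (Real.add_one_le_exp _) (by positivity)
  have hsub : {β | β ∈ cell (lam 0) m₀ ∧
      (2 * C₁ + 1) * J ≤ ∑ j ∈ range J, min (Y j (dg (lam (j + 1)) β) : ℝ) T} ⊆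
      {β | β ∈ cell (lam 0) m₀ ∧ Real.exp (T⁻¹ * ((2 * C₁ + 1) * J)) ≤
        ∏ j ∈ range J, g j (dg (lam (j + 1)) β)} := by
    rintro β ⟨h1, h2⟩
    refine ⟨h1, ?_⟩
    simp only [hg]
    rw [← Real.exp_sum, ← mul_sum]
    exact Real.exp_le_exp.2 (mul_le_mul_of_nonneg_left h2 hTi.le)
  refine (measure_mono hsub).trans ((vol_exp h hg0 (Real.exp_pos _).le hstep J
    (Real.exp_pos _)).trans (ENNReal.ofReal_le_ofReal ?_))
  rw [← Real.exp_nat_mul, ← Real.exp_sub]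
  apply Real.exp_le_exp.2
  rw [div_eq_mul_inv]
  apply le_of_eq
  ring

lemma tsum_ne_top_of_summable {u : ℕ → ℝ} (h0 : ∀ J, 0 ≤ u J) (hs : Summable u)
    {f : ℕ → ENNReal} (hf : ∀ J, f J ≤ ENNReal.ofReal (u J)) : ∑' J, f J ≠ ⊤ := by
  apply ne_top_of_le_ne_top _ (ENNReal.tsum_le_tsum hf)
  rw [← ENNReal.ofReal_tsum_of_nonneg h0 hs]
  exact ENNReal.ofReal_ne_top

lemma upper_ae {lam : ℕ → ℕ} (h : Chain lam) {Y : ℕ → ℕ → ℕ} {c₁ C₁ : ℝ}
    (hC : 0 < C₁) {m₀ : ℕ} (H : HM lam Y c₁ C₁ m₀) :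
    ∀ᵐ β : ℝ, β ∈ cell (lam 0) m₀ → ∀ᶠ J : ℕ in atTop,
      ∑ j ∈ range J, (Y j (dg (lam (j + 1)) β) : ℝ) ≤ (2 * C₁ + 2) * J := by
  -- the thresholds `T j = (j + 1) ^ (2 / 3)`
  set T : ℕ → ℝ := fun j => ((j : ℝ) + 1) ^ (2 / 3 : ℝ) with hT
  have hT0 : ∀ j, 0 < T j := fun j => Real.rpow_pos_of_pos (by positivity) _
  have hTmono : ∀ i j, i ≤ j → T i ≤ T j := by
    intro i j hij
    apply Real.rpow_le_rpow (by positivity) _ (by norm_num)
    have : (i : ℝ) ≤ j := by exact_mod_cast hij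
    linarith
  have hs1 : Summable (fun j : ℕ => C₁ / (T j) ^ 2) := by
    have h1 : Summable (fun j : ℕ => 1 / ((j : ℝ)) ^ (4 / 3 : ℝ)) :=
      Real.summable_one_div_nat_rpow.2 (by norm_num)
    have h2 := ((summable_nat_add_iff 1).2 h1).mul_left C₁
    refine h2.congr fun j => ?_
    simp only [hT]
    rw [← Real.rpow_natCast, ← Real.rpow_mul (by positivity)]
    push_cast
    rw [mul_one_div]
    norm_num
  have hs2 : Summable (fun J : ℕ => Real.exp (-((J : ℝ) / T J))) := by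
    have h1 : Summable (fun j : ℕ => 1 / ((j : ℝ)) ^ 2) :=
      Real.summable_one_div_nat_pow.2 (by norm_num)
    have h2 := ((summable_nat_add_iff 1).2 h1).mul_left (720 * 64)
    refine Summable.of_nonneg_of_le (fun J => (Real.exp_pos _).le) (fun J => ?_)
      (h2)
    push_cast
    rcases Nat.eq_zero_or_pos J with rfl | hJ
    · simp
      norm_num
    have hJ1 : (1 : ℝ) ≤ J := by exact_mod_cast hJ
    -- J / T ≥ (J+1)^{1/3} / 2
    have hx : 0 < (J : ℝ) + 1 := by positivity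
    have e1 : ((J : ℝ) + 1) ^ (1 / 3 : ℝ) / 2 ≤ (J : ℝ) / T J := by
      rw [div_le_div_iff₀ (by norm_num) (hT0 J)]
      have : ((J : ℝ) + 1) ^ (1 / 3 : ℝ) * T J = (J : ℝ) + 1 := by
        simp only [hT]
        rw [← Real.rpow_add hx]
        norm_num
      rw [this]
      linarith
    have hy : 0 < ((J : ℝ) + 1) ^ (1 / 3 : ℝ) / 2 := by positivity
    calc Real.exp (-((J : ℝ) / T J)) ≤ Real.exp (-(((J : ℝ) + 1) ^ (1 / 3 : ℝ) / 2)) :=
          Real.exp_le_exp.2 (by linarith)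
      _ ≤ 720 / (((J : ℝ) + 1) ^ (1 / 3 : ℝ) / 2) ^ 6 := exp_neg_le hy
      _ = 720 * 64 * (1 / ((J : ℝ) + 1) ^ 2) := by
          rw [div_pow, ← Real.rpow_natCast (((J : ℝ) + 1) ^ (1 / 3 : ℝ)) 6,
            ← Real.rpow_mul hx.le]
          have : ((1 / 3 : ℝ) * ((6 : ℕ) : ℝ)) = ((2 : ℕ) : ℝ) := by norm_num
          rw [this, Real.rpow_natCast]
          field_simp
          norm_num
  have hv1 := tsum_ne_top_of_summable (fun j => by have := hT0 j; positivity) hs1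
    (fun j => vol_large h hC H j (hT0 j))
  have hv2 := tsum_ne_top_of_summable (fun j => (Real.exp_pos _).le) hs2
    (fun J => vol_trunc h H J (hT0 J))
  filter_upwards [ae_eventually_notMem hv1, ae_eventually_notMem hv2] with β hβ1 hβ2 hcell
  obtain ⟨j₀, hj₀⟩ := eventually_atTop.1 hβ1
  have hY : ∀ j, j₀ ≤ j → (Y j (dg (lam (j + 1)) β) : ℝ) ≤ T j := by
    intro j hj
    by_contra hlt
    push Not at hlt
    exact hj₀ j hj ⟨hcell, hlt⟩
  set D : ℝ := ∑ j ∈ range j₀, (Y j (dg (lam (j + 1)) β) : ℝ) with hD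
  filter_upwards [hβ2, eventually_ge_atTop j₀, eventually_ge_atTop ⌈D⌉₊] with J h1 h2 h3
  have h4 : ∑ j ∈ range J, min (Y j (dg (lam (j + 1)) β) : ℝ) (T J) < (2 * C₁ + 1) * J := by
    by_contra hlt
    push Not at hlt
    exact h1 ⟨hcell, hlt⟩
  have h5 : D ≤ J := (Nat.le_ceil D).trans (by exact_mod_cast h3)
  have h6 : ∑ j ∈ range J, (Y j (dg (lam (j + 1)) β) : ℝ) ≤
      D + ∑ j ∈ range J, min (Y j (dg (lam (j + 1)) β) : ℝ) (T J) := by
    rw [hD, ← Finset.sum_range_add_sum_Ico _ h2, ← Finset.sum_range_add_sum_Ico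
      (fun j => min (Y j (dg (lam (j + 1)) β) : ℝ) (T J)) h2]
    have h7 : 0 ≤ ∑ j ∈ range j₀, min (Y j (dg (lam (j + 1)) β) : ℝ) (T J) :=
      sum_nonneg fun j _ => le_min (Nat.cast_nonneg _) (hT0 J).le
    have h8 : ∑ j ∈ Ico j₀ J, (Y j (dg (lam (j + 1)) β) : ℝ) ≤
        ∑ j ∈ Ico j₀ J, min (Y j (dg (lam (j + 1)) β) : ℝ) (T J) := by
      apply sum_le_sum
      intro j hj
      rw [mem_Ico] at hj
      exact le_min le_rfl ((hY j hj.1).trans (hTmono j J hj.2.le))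
    linarith
  nlinarith

end Pool.Agent.H555R4.LW
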