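import Pool.Agent.H555R4.LW.F3

set_option autoImplicit false

open Finset MeasureTheory Filter Topology

namespace Pool.Agent.H555R4.LW

/-- the counting function -/
noncomputable def cnt (β : ℝ) (n : ℕ) : ℕ :=
  ((range (n + 1)).filter (fun p => p.Prime ∧ (rp p (dg p β)).Prime)).card

/-- the block count as a function of the amplitude -/
noncomputable def Bl (β : ℝ) (i : ℕ) : ℕ := Yb i (dg (2 ^ (i + 1)) β)

lemma Bl_eq {β : ℝ} (hβ : 0 < β) (i : ℕ) :
    Bl β i = ((Ioc (2 ^ i) (2 ^ (i + 1))).filter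
      (fun p => p.Prime ∧ (rp p (dg p β)).Prime)).card := by
  unfold Bl Yb
  congr 1
  apply filter_congr
  intro p hp
  rw [dg_div hβ (mem_Ioc.1 hp).2]

lemma cnt_mono (β : ℝ) {m n : ℕ} (h : m ≤ n) : cnt β m ≤ cnt β n := by
  unfold cnt
  apply card_le_card
  apply filter_subset_filter
  exact range_subset_range.2 (by omega)

lemma cnt_succ {β : ℝ} (hβ : 0 < β) (i : ℕ) :
    cnt β (2 ^ (i + 1)) = cnt β (2 ^ i) + Bl β i := by
  rw [Bl_eq hβ]
  unfold cnt
  rw [← card_union_of_disjoint]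
  · congr 1
    rw [← filter_union]
    congr 1
    ext p
    have : 2 ^ i ≤ 2 ^ (i + 1) := Nat.pow_le_pow_right (by norm_num) (Nat.le_succ i)
    simp only [mem_union, mem_range, mem_Ioc]
    omega
  · apply disjoint_filter_filter
    rw [disjoint_left]
    intro p hp hp'
    rw [mem_range] at hp
    rw [mem_Ioc] at hp'
    omega

lemma cnt_blocks {β : ℝ} (hβ : 0 < β) (a J : ℕ) :
    cnt β (2 ^ (a + J)) = cnt β (2 ^ a) + ∑ i ∈ range J, Bl β (a + i) := by
  induction J with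
  | zero => simp
  | succ J ih =>
    rw [sum_range_succ, ← add_assoc a J 1, cnt_succ hβ, ih]
    ring

lemma sum_residues (f : ℕ → ℕ) (K J : ℕ) :
    ∑ i ∈ range ((K + 1) * J), f i = ∑ r ∈ range (K + 1), ∑ j ∈ range J, f (r + j * (K + 1)) := by
  induction J with
  | zero => simp
  | succ J ih =>
    rw [Nat.mul_succ, sum_range_add, ih]
    simp only [sum_range_succ _ J]
    rw [sum_add_distrib]
    congr 1
    apply sum_congr rfl
    intro r _
    congr 1
    ring

/-- levels of the chain starting at `b` -/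
def lamb (K b j : ℕ) : ℕ := 2 ^ (b + j * (K + 1))

lemma lamb_chain (K b : ℕ) : Chain (lamb K b) := by
  constructor
  intro j
  unfold lamb
  apply Nat.pow_le_pow_right (by norm_num)
  have : j * (K + 1) ≤ (j + 1) * (K + 1) := Nat.mul_le_mul_right _ (Nat.le_succ j)
  omega

lemma lamb_succ (K b j : ℕ) : lamb K b (j + 1) = 2 ^ (b + K + j * (K + 1) + 1) := by
  unfold lamb
  congr 1
  ring

lemma hm_of {K : ℕ} {c₁ C₁ : ℝ} {s i₀ : ℕ}
    (hE : ∀ i : ℕ, i₀ ≤ i → ∀ c : ℕ, 1 ≤ c → c ≤ 2 ^ (2 ^ (i - K) + s) →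
    c₁ * 2 ^ (2 ^ (i + 1) - 2 ^ (i - K)) ≤
      ∑ n ∈ Ico (c * 2 ^ (2 ^ (i + 1) - 2 ^ (i - K))) ((c + 1) * 2 ^ (2 ^ (i + 1) - 2 ^ (i - K))),
        (Yb i n : ℝ) ∧
    ∑ n ∈ Ico (c * 2 ^ (2 ^ (i + 1) - 2 ^ (i - K))) ((c + 1) * 2 ^ (2 ^ (i + 1) - 2 ^ (i - K))),
        (Yb i n : ℝ) ^ 2 ≤ C₁ * 2 ^ (2 ^ (i + 1) - 2 ^ (i - K)))
    {b : ℕ} (hb : i₀ ≤ b + K) {m₀ : ℕ} (h1 : 1 ≤ m₀) (h2 : m₀ < 2 ^ (lamb K b 0 + s)) :
    HM (lamb K b) (fun j n => Yb (b + K + j * (K + 1)) n) c₁ C₁ m₀ := by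
  have key : ∀ j, ∀ m ∈ kids (lamb K b 0) (lamb K b j) m₀, 1 ≤ m ∧ m ≤ 2 ^ (lamb K b j + s) := by
    intro j m hm
    unfold kids at hm
    rw [mem_Ico] at hm
    have hle : lamb K b 0 ≤ lamb K b j := (lamb_chain K b).le (Nat.zero_le j)
    constructor
    · have : 1 * 1 ≤ m₀ * 2 ^ (lamb K b j - lamb K b 0) := Nat.mul_le_mul h1 Nat.one_le_two_pow
      omega
    · have h3 : (m₀ + 1) * 2 ^ (lamb K b j - lamb K b 0) ≤
          2 ^ (lamb K b 0 + s) * 2 ^ (lamb K b j - lamb K b 0) := Nat.mul_le_mul_right _ h2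
      rw [← pow_add] at h3
      have e : lamb K b 0 + s + (lamb K b j - lamb K b 0) = lamb K b j + s := by omega
      rw [e] at h3
      omega
  have e1 : ∀ j, 2 ^ (b + K + j * (K + 1) - K) = lamb K b j := by
    intro j
    unfold lamb
    congr 1
    omega
  constructor
  · intro j m hm
    obtain ⟨k1, k2⟩ := key j m hm
    have := (hE (b + K + j * (K + 1)) (by omega) m k1 (by rw [e1]; exact k2)).1
    rw [e1, ← lamb_succ] at this
    exact this
  · intro j m hm
    obtain ⟨k1, k2⟩ := key j m hm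
    have := (hE (b + K + j * (K + 1)) (by omega) m k1 (by rw [e1]; exact k2)).2
    rw [e1, ← lamb_succ] at this
    exact this

theorem taskF (hE : StE) : ∃ c C : ℝ, 0 < c ∧ ∀ᵐ β : ℝ, 0 < β → ∀ᶠ n : ℕ in atTop,
    c * Real.log n ≤ cnt β n ∧ (cnt β n : ℝ) ≤ C * Real.log n := by
  obtain ⟨K, c₁, C₁, hc, hC, hE⟩ := hE
  choose i₀ hi₀ hE using hE
  have hlow : ∀ᵐ β : ℝ, ∀ s b m₀ : ℕ, i₀ s ≤ b + K → 1 ≤ m₀ → m₀ < 2 ^ (lamb K b 0 + s) →
      β ∈ cell (lamb K b 0) m₀ → ∀ᶠ J : ℕ in atTop,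
      theta c₁ C₁ * J ≤ ∑ j ∈ range J,
        (Yb (b + K + j * (K + 1)) (dg (lamb K b (j + 1)) β) : ℝ) := by
    rw [ae_all_iff]; intro s
    rw [ae_all_iff]; intro b
    rw [ae_all_iff]; intro m₀
    by_cases h1 : i₀ s ≤ b + K
    · by_cases h2 : 1 ≤ m₀
      · by_cases h3 : m₀ < 2 ^ (lamb K b 0 + s)
        · filter_upwards [lower_ae (lamb_chain K b) hc hC (hm_of (hE s) h1 h2 h3)] with β hβ _ _ _
          exact hβ
        · exact Eventually.of_forall fun β _ _ h => absurd h h3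
      · exact Eventually.of_forall fun β _ h => absurd h h2
    · exact Eventually.of_forall fun β h => absurd h h1
  have hupp : ∀ᵐ β : ℝ, ∀ s b m₀ : ℕ, i₀ s ≤ b + K → 1 ≤ m₀ → m₀ < 2 ^ (lamb K b 0 + s) →
      β ∈ cell (lamb K b 0) m₀ → ∀ᶠ J : ℕ in atTop,
      ∑ j ∈ range J, (Yb (b + K + j * (K + 1)) (dg (lamb K b (j + 1)) β) : ℝ) ≤
        (2 * C₁ + 2) * J := by
    rw [ae_all_iff]; intro s
    rw [ae_all_iff]; intro b
    rw [ae_all_iff]; intro m₀
    by_cases h1 : i₀ s ≤ b + K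
    · by_cases h2 : 1 ≤ m₀
      · by_cases h3 : m₀ < 2 ^ (lamb K b 0 + s)
        · filter_upwards [upper_ae (lamb_chain K b) hC (hm_of (hE s) h1 h2 h3)] with β hβ _ _ _
          exact hβ
        · exact Eventually.of_forall fun β _ _ h => absurd h h3
      · exact Eventually.of_forall fun β _ h => absurd h h2
    · exact Eventually.of_forall fun β h => absurd h h1
  have hl2 : 0 < Real.log 2 := Real.log_pos (by norm_num)
  have hθ := theta_pos hc hC
  refine ⟨theta c₁ C₁ / (2 * (K + 1) * Real.log 2), (K + 1) * (2 * C₁ + 2) / Real.log 2 + 1,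
    by positivity, ?_⟩
  filter_upwards [hlow, hupp] with β hlowβ huppβ hβ
  -- choose the scale and the starting level
  obtain ⟨s, hs⟩ : ∃ s : ℕ, β ≤ 2 ^ s := by
    obtain ⟨s, hs⟩ := pow_unbounded_of_one_lt β (show (1 : ℝ) < 2 by norm_num)
    exact ⟨s, hs.le⟩
  obtain ⟨u, hu⟩ : ∃ u : ℕ, 1 / β < 2 ^ u :=
    pow_unbounded_of_one_lt (1 / β) (show (1 : ℝ) < 2 by norm_num)
  set b := i₀ s + u with hb
  -- all later starting levels are admissible
  have hadm : ∀ b', b ≤ b' → i₀ s ≤ b' + K ∧ 1 ≤ dg (lamb K b' 0) β ∧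
      dg (lamb K b' 0) β < 2 ^ (lamb K b' 0 + s) := by
    intro b' hb'
    obtain ⟨h1, h2⟩ := dg_spec (P := lamb K b' 0) hβ
    have hul : u ≤ lamb K b' 0 := by
      unfold lamb
      have : b' < 2 ^ b' := Nat.lt_two_pow_self
      simp only [zero_mul, add_zero]
      omega
    have h3 : (1 : ℝ) < β * 2 ^ lamb K b' 0 := by
      have : (2 : ℝ) ^ u ≤ 2 ^ lamb K b' 0 := pow_le_pow_right₀ (by norm_num) hul
      have h4 : 1 / β < 2 ^ lamb K b' 0 := hu.trans_le this
      rw [div_lt_iff₀ hβ] at h4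
      linarith
    refine ⟨by omega, ?_, ?_⟩
    · have : (0 : ℝ) < (dg (lamb K b' 0) β : ℝ) := by linarith
      exact_mod_cast this
    · have h4 : (dg (lamb K b' 0) β : ℝ) < 2 ^ (lamb K b' 0 + s) := by
        calc (dg (lamb K b' 0) β : ℝ) < β * 2 ^ lamb K b' 0 := h1
          _ ≤ 2 ^ s * 2 ^ lamb K b' 0 := mul_le_mul_of_nonneg_right hs (by positivity)
          _ = 2 ^ (lamb K b' 0 + s) := by rw [← pow_add, add_comm]
      exact_mod_cast h4
  have hY : ∀ b' j, Yb (b' + K + j * (K + 1)) (dg (lamb K b' (j + 1)) β) =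
      Bl β (b' + K + j * (K + 1)) := by
    intro b' j
    unfold Bl
    rw [lamb_succ]
  have hlow1 : ∀ᶠ J : ℕ in atTop, theta c₁ C₁ * J ≤
      ∑ j ∈ range J, (Bl β (b + K + j * (K + 1)) : ℝ) := by
    obtain ⟨h1, h2, h3⟩ := hadm b le_rfl
    have := hlowβ s b _ h1 h2 h3 (mem_cell_dg hβ)
    simp only [hY] at this
    exact this
  have hupp1 : ∀ᶠ J : ℕ in atTop, ∀ r ∈ range (K + 1),
      ∑ j ∈ range J, (Bl β (b + r + K + j * (K + 1)) : ℝ) ≤ (2 * C₁ + 2) * J := by
    rw [Filter.eventually_all_finset]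
    intro r _
    obtain ⟨h1, h2, h3⟩ := hadm (b + r) (Nat.le_add_right _ _)
    have := huppβ s (b + r) _ h1 h2 h3 (mem_cell_dg hβ)
    simp only [hY] at this
    exact this
  -- logs
  have hlogt : Tendsto (fun n : ℕ => Real.log n) atTop atTop :=
    Real.tendsto_log_atTop.comp tendsto_natCast_atTop_atTop
  have hnlog : Tendsto (fun n : ℕ => Nat.log 2 n) atTop atTop := by
    apply tendsto_atTop_mono' atTop (f₁ := fun n => Nat.log 2 n) (Eventually.of_forall fun n => le_rfl)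
    rw [tendsto_atTop]
    intro c
    filter_upwards [eventually_ge_atTop (2 ^ c)] with n hn
    exact Nat.le_log_of_pow_le (by norm_num) hn
  have hup : ∀ n : ℕ, 0 < n → (Nat.log 2 n : ℝ) * Real.log 2 ≤ Real.log n := by
    intro n hn
    have h1 : 2 ^ Nat.log 2 n ≤ n := Nat.pow_log_le_self 2 hn.ne'
    have h2 : ((2 : ℝ)) ^ Nat.log 2 n ≤ n := by exact_mod_cast h1
    have h3 := Real.log_le_log (by positivity) h2
    rwa [Real.log_pow] at h3
  have hlo : ∀ n : ℕ, 0 < n → Real.log n ≤ ((Nat.log 2 n : ℝ) + 1) * Real.log 2 := by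
    intro n hn
    have h1 : n < 2 ^ (Nat.log 2 n + 1) := Nat.lt_pow_succ_log_self (by norm_num) n
    have h2 : (n : ℝ) ≤ (2 : ℝ) ^ (Nat.log 2 n + 1) := by exact_mod_cast h1.le
    have h3 := Real.log_le_log (by exact_mod_cast hn) h2
    rw [Real.log_pow] at h3
    push_cast at h3
    exact h3
  -- number of blocks for the lower bound
  have hJlow : Tendsto (fun n : ℕ => (Nat.log 2 n - (b + K)) / (K + 1)) atTop atTop := by
    have h1 : Tendsto (fun n : ℕ => Nat.log 2 n - (b + K)) atTop atTop :=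
      (tendsto_sub_atTop_nat (b + K)).comp hnlog
    exact (Nat.tendsto_div_const_atTop (Nat.succ_ne_zero K)).comp h1
  have hJupp : Tendsto (fun n : ℕ => Nat.log 2 n + 1) atTop atTop :=
    tendsto_atTop_mono (fun n => Nat.le_succ _) hnlog
  have hK1 : (0 : ℝ) < K + 1 := by positivity
  filter_upwards [hJlow.eventually hlow1, hJupp.eventually hupp1, eventually_gt_atTop 0,
    hnlog.eventually (eventually_ge_atTop (b + K)),
    hlogt.eventually (eventually_ge_atTop (2 * ((b + K : ℝ) + 1 + (K + 1)) * Real.log 2)),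
    hlogt.eventually (eventually_ge_atTop ((cnt β (2 ^ (b + K)) : ℝ) + (K + 1) * (2 * C₁ + 2)))]
    with n hlow2 hupp2 hn hlogn hbig1 hbig2
  constructor
  · set J := (Nat.log 2 n - (b + K)) / (K + 1) with hJ
    have hle : b + K + (K + 1) * J ≤ Nat.log 2 n := by
      have : (K + 1) * J ≤ Nat.log 2 n - (b + K) := Nat.mul_div_le _ _
      omega
    have h1 : cnt β (2 ^ (b + K + (K + 1) * J)) ≤ cnt β n := by
      apply cnt_mono
      exact (Nat.pow_le_pow_right (by norm_num) hle).trans (Nat.pow_log_le_self 2 hn.ne')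
    rw [cnt_blocks hβ, sum_residues (fun i => Bl β (b + K + i))] at h1
    have h2 : ∑ j ∈ range J, Bl β (b + K + (0 + j * (K + 1))) ≤
        ∑ r ∈ range (K + 1), ∑ j ∈ range J, Bl β (b + K + (r + j * (K + 1))) :=
      single_le_sum (f := fun r => ∑ j ∈ range J, Bl β (b + K + (r + j * (K + 1))))
        (fun _ _ => Nat.zero_le _) (mem_range.2 (Nat.succ_pos K))
    have h3 : ∑ j ∈ range J, Bl β (b + K + (0 + j * (K + 1))) ≤ cnt β n := by omega
    have h4 : (∑ j ∈ range J, (Bl β (b + K + j * (K + 1)) : ℝ)) ≤ cnt β n := by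
      simp only [zero_add] at h3
      exact_mod_cast h3
    have h5 : Nat.log 2 n < (K + 1) * (J + 1) + (b + K) := by
      have := Nat.lt_mul_div_succ (Nat.log 2 n - (b + K)) (Nat.succ_pos K)
      rw [← hJ] at this
      have : Nat.log 2 n - (b + K) < (K + 1) * (J + 1) := this
      omega
    have h6 : (Nat.log 2 n : ℝ) ≤ (K + 1) * (J + 1) + (b + K) := by exact_mod_cast h5.le
    have h7 := hlo n hn
    have h8 : Real.log n ≤ ((K + 1) * (J + 1) + (b + K) + 1) * Real.log 2 :=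
      h7.trans (mul_le_mul_of_nonneg_right (by linarith) hl2.le)
    have h9 : Real.log n / 2 ≤ (K + 1) * J * Real.log 2 := by nlinarith
    have h10 : theta c₁ C₁ / (2 * (K + 1) * Real.log 2) * Real.log n ≤ theta c₁ C₁ * J := by
      rw [div_mul_eq_mul_div, div_le_iff₀ (by positivity)]
      have := mul_le_mul_of_nonneg_left h9 hθ.le
      nlinarith
    exact h10.trans (hlow2.trans h4)
  · set J := Nat.log 2 n + 1 with hJ
    have h1 : cnt β n ≤ cnt β (2 ^ (b + K + (K + 1) * J)) := by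
      apply cnt_mono
      have h2 : n < 2 ^ J := Nat.lt_pow_succ_log_self (by norm_num) n
      refine h2.le.trans (Nat.pow_le_pow_right (by norm_num) ?_)
      have : 1 * J ≤ (K + 1) * J := Nat.mul_le_mul_right _ (by omega)
      omega
    rw [cnt_blocks hβ, sum_residues (fun i => Bl β (b + K + i))] at h1
    have h2 : (cnt β n : ℝ) ≤ (cnt β (2 ^ (b + K)) : ℝ) +
        ∑ r ∈ range (K + 1), ∑ j ∈ range J, (Bl β (b + r + K + j * (K + 1)) : ℝ) := by
      have h3 : ((cnt β n : ℕ) : ℝ) ≤ ((cnt β (2 ^ (b + K)) +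
        ∑ r ∈ range (K + 1), ∑ j ∈ range J, Bl β (b + K + (r + j * (K + 1))) : ℕ) : ℝ) := by
        exact_mod_cast h1
      push_cast at h3
      refine h3.trans (le_of_eq ?_)
      congr 1
      apply sum_congr rfl
      intro r _
      apply sum_congr rfl
      intro j _
      congr 2
      ring
    have h4 : ∑ r ∈ range (K + 1), ∑ j ∈ range J, (Bl β (b + r + K + j * (K + 1)) : ℝ) ≤
        (K + 1) * ((2 * C₁ + 2) * J) := by
      calc _ ≤ ∑ r ∈ range (K + 1), (2 * C₁ + 2) * (J : ℝ) := sum_le_sum hupp2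
        _ = _ := by rw [sum_const, card_range, nsmul_eq_mul]; push_cast; ring
    have h5 := hup n hn
    have h6 : (J : ℝ) = Nat.log 2 n + 1 := by rw [hJ]; push_cast; ring
    have h7 : (Nat.log 2 n : ℝ) ≤ Real.log n / Real.log 2 := by
      rw [le_div_iff₀ hl2]; exact h5
    have h8 : (K + 1 : ℝ) * ((2 * C₁ + 2) * J) ≤
        (K + 1) * (2 * C₁ + 2) * (Real.log n / Real.log 2) + (K + 1) * (2 * C₁ + 2) := by
      rw [h6]
      have := mul_le_mul_of_nonneg_left h7 (show 0 ≤ (K + 1 : ℝ) * (2 * C₁ + 2) by positivity)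
      nlinarith
    have h9 : ((K + 1 : ℝ) * (2 * C₁ + 2) / Real.log 2 + 1) * Real.log n =
        (K + 1) * (2 * C₁ + 2) * (Real.log n / Real.log 2) + Real.log n := by ring
    rw [h9]
    linarith

end Pool.Agent.H555R4.LW
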